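import Pool.Agent.RDF.Sym

namespace Pool.Agent.RDF

/-- families for `n = 12 k + 5` -/
def c12_5_F : List Fam := [
  ⟨1, -2, ⟨2, false, 4, 4, 1⟩, ⟨0, false, 0, -2, -1⟩, ⟨1, true, 8, 7, 2⟩⟩,
  ⟨1, -2, ⟨2, true, 10, 6, 1⟩, ⟨0, false, 10, 3, -1⟩, ⟨0, false, 7, 6, 2⟩⟩,
  ⟨1, -1, ⟨0, true, 1, 1, 1⟩, ⟨1, false, 7, 1, -1⟩, ⟨0, false, 7, 5, 2⟩⟩,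
  ⟨1, -2, ⟨1, true, 2, 3, 1⟩, ⟨1, false, 2, -1, -1⟩, ⟨0, false, 2, 5, 2⟩⟩,
  ⟨1, -2, ⟨1, true, 0, 2, 1⟩, ⟨0, false, 6, 1, -1⟩, ⟨1, false, 3, 5, 2⟩⟩,
  ⟨1, -1, ⟨0, false, 0, 2, 1⟩, ⟨2, false, 6, 1, -1⟩, ⟨2, true, 7, 5, 2⟩⟩,
  ⟨1, -2, ⟨1, false, 10, 6, 1⟩, ⟨0, false, 7, 1, -1⟩, ⟨1, true, 3, 4, 2⟩⟩,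
  ⟨1, -2, ⟨2, false, 11, 7, 1⟩, ⟨1, false, 8, 3, -1⟩, ⟨1, false, 8, 8, 2⟩⟩,
  ⟨1, -1, ⟨0, false, 4, 3, 1⟩, ⟨2, false, 4, 0, -1⟩, ⟨2, false, 7, 4, 2⟩⟩,
  ⟨1, -2, ⟨2, false, 9, 5, 1⟩, ⟨0, false, 11, 1, -1⟩, ⟨0, false, 2, 4, 2⟩⟩,
  ⟨1, -1, ⟨1, true, 11, 6, 1⟩, ⟨2, false, 1, -1, -1⟩, ⟨2, false, 1, 3, 2⟩⟩,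
  ⟨1, -2, ⟨1, true, 5, 4, 1⟩, ⟨2, false, 7, 1, -1⟩, ⟨2, false, 1, 4, 2⟩⟩,
  ⟨0, 1, ⟨0, false, 5, 3, 1⟩, ⟨1, false, 5, 0, 2⟩, ⟨1, false, 8, 5, 3⟩⟩,
  ⟨0, 1, ⟨1, false, 7, 4, 1⟩, ⟨2, false, 9, 2, 2⟩, ⟨2, false, 9, 4, 3⟩⟩,
  ⟨0, 1, ⟨0, false, 2, 0, 1⟩, ⟨0, false, 11, 2, 2⟩, ⟨0, false, 11, 5, 3⟩⟩,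
  ⟨0, 1, ⟨0, false, 4, 0, 1⟩, ⟨1, true, 0, 1, 2⟩, ⟨1, false, 10, 4, 3⟩⟩,
  ⟨0, 1, ⟨2, false, 4, 3, 1⟩, ⟨2, false, 10, 3, 2⟩, ⟨2, true, 10, 4, 3⟩⟩,
  ⟨0, 1, ⟨0, false, 6, 2, 1⟩, ⟨1, false, 3, 2, 2⟩, ⟨1, true, 7, 5, 3⟩⟩,
  ⟨0, 1, ⟨0, false, 11, 3, 1⟩, ⟨1, false, 8, 4, 2⟩, ⟨2, false, 11, 4, 3⟩⟩,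
  ⟨0, 1, ⟨0, false, 7, 4, 1⟩, ⟨1, false, 7, 2, 2⟩, ⟨2, true, 1, 0, 3⟩⟩,
  ⟨0, 1, ⟨0, false, 0, 1, 1⟩, ⟨1, true, 8, 6, 2⟩, ⟨2, false, 10, 5, 3⟩⟩,
  ⟨0, 1, ⟨1, true, 3, 3, 1⟩, ⟨1, false, 5, 2, 2⟩, ⟨2, false, 1, 2, 3⟩⟩,
  ⟨0, 1, ⟨0, false, 2, 3, 1⟩, ⟨0, false, 5, 2, 2⟩, ⟨1, true, 1, 1, 3⟩⟩,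
  ⟨0, 1, ⟨0, true, 2, 1, 1⟩, ⟨0, false, 2, 2, 2⟩, ⟨1, false, 10, 3, 3⟩⟩,
  ⟨0, 1, ⟨0, false, 6, 3, 1⟩, ⟨0, false, 9, 5, 2⟩, ⟨2, false, 6, 2, 3⟩⟩,
  ⟨0, 1, ⟨0, false, 4, 1, 1⟩, ⟨0, true, 11, 4, 2⟩, ⟨2, false, 11, 6, 3⟩⟩,
  ⟨0, 1, ⟨1, true, 1, 0, 1⟩, ⟨1, false, 5, 1, 2⟩, ⟨1, false, 11, 5, 3⟩⟩,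
  ⟨0, 1, ⟨0, false, 9, 2, 1⟩, ⟨0, false, 9, 3, 2⟩, ⟨1, false, 2, 0, 3⟩⟩,
  ⟨0, 1, ⟨0, true, 9, 4, 1⟩, ⟨2, false, 3, 1, 2⟩, ⟨2, false, 9, 3, 3⟩⟩,
  ⟨0, 1, ⟨0, false, 7, 2, 1⟩, ⟨1, false, 3, 1, 2⟩, ⟨1, true, 11, 4, 3⟩⟩,
  ⟨0, 1, ⟨1, true, 2, 1, 1⟩, ⟨2, false, 4, 1, 2⟩, ⟨2, false, 7, 2, 3⟩⟩,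
  ⟨0, 1, ⟨0, false, 12, 4, 1⟩, ⟨1, false, 6, 2, 2⟩, ⟨2, true, 3, 0, 3⟩⟩,
  ⟨0, 1, ⟨1, false, 2, 2, 1⟩, ⟨2, true, 6, 3, 2⟩, ⟨2, false, 7, 3, 3⟩⟩,
  ⟨0, 1, ⟨0, false, 7, 3, 1⟩, ⟨2, true, 5, 2, 2⟩, ⟨2, false, 11, 5, 3⟩⟩,
  ⟨0, 1, ⟨0, false, 4, 2, 1⟩, ⟨1, true, 5, 3, 2⟩, ⟨2, false, 1, 1, 3⟩⟩,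
  ⟨0, 1, ⟨1, true, 7, 3, 1⟩, ⟨1, false, 10, 5, 2⟩, ⟨2, false, 4, 2, 3⟩⟩]

def c12_5_p0 : List Item := [
  ⟨0, 2, [⟨20, 0, 0, 0⟩]⟩, ⟨1, 1, [⟨5, 0, 0, 0⟩]⟩, ⟨2, 0, [⟨2, 0, 0, 0⟩]⟩,
  ⟨2, 5, [⟨14, 0, 0, 0⟩, ⟨23, 0, 0, 0⟩, ⟨23, 1, 1, 0⟩, ⟨22, 0, 0, 0⟩, ⟨9, 2, 2, 0⟩]⟩,
  ⟨4, -1, [⟨3, 2, 2, 0⟩, ⟨9, 2, 2, 0⟩]⟩, ⟨4, 3, [⟨3, 2, 2, 0⟩, ⟨15, 0, 0, 0⟩, ⟨25, 0, 0, 0⟩, ⟨34, 0, 0, 0⟩]⟩,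
  ⟨5, 2, [⟨8, 0, 0, 0⟩]⟩, ⟨5, 4, [⟨22, 1, 1, 0⟩, ⟨12, 0, 0, 0⟩]⟩, ⟨6, 2, [⟨4, 1, 1, 0⟩]⟩,
  ⟨6, 4, [⟨17, 0, 0, 0⟩, ⟨24, 0, 0, 0⟩]⟩, ⟨7, 2, [⟨6, 1, 1, 0⟩]⟩,
  ⟨7, 6, [⟨29, 0, 0, 0⟩, ⟨33, 0, 0, 0⟩, ⟨19, 0, 0, 0⟩, ⟨2, 2, 2, 0⟩]⟩, ⟨9, 1, [⟨1, 2, 2, 0⟩, ⟨2, 2, 2, 0⟩]⟩,
  ⟨9, 6, [⟨2, 2, 2, 0⟩, ⟨27, 0, 0, 0⟩, ⟨27, 1, 1, 0⟩, ⟨28, 0, 0, 0⟩, ⟨24, 1, 1, 0⟩]⟩, ⟨10, 4, [⟨1, 1, 1, 0⟩]⟩,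
  ⟨11, 2, [⟨9, 1, 1, 0⟩]⟩, ⟨11, 6, [⟨14, 1, 1, 0⟩, ⟨18, 0, 0, 0⟩, ⟨25, 1, 1, 0⟩, ⟨14, 2, 2, 0⟩]⟩,
  ⟨12, 4, [⟨0, 1, 1, 1⟩]⟩, ⟨12, 5, [⟨31, 0, 0, 0⟩]⟩]

def c12_5_p1 : List Item := [
  ⟨0, 2, [⟨15, 1, 1, 0⟩]⟩, ⟨1, 0, [⟨4, 0, 0, 0⟩]⟩, ⟨1, 2, [⟨26, 0, 0, 0⟩, ⟨22, 2, 2, 0⟩]⟩, ⟨2, 0, [⟨3, 1, 1, 0⟩]⟩,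
  ⟨2, 3, [⟨27, 2, 2, 0⟩, ⟨30, 0, 0, 0⟩, ⟨32, 0, 0, 0⟩]⟩, ⟨3, 1, [⟨3, 0, 0, 0⟩]⟩,
  ⟨3, 5, [⟨29, 1, 1, 0⟩, ⟨17, 1, 1, 0⟩, ⟨21, 0, 0, 0⟩, ⟨6, 2, 2, 0⟩]⟩, ⟨5, -1, [⟨4, 2, 2, 0⟩, ⟨6, 2, 2, 0⟩]⟩,
  ⟨5, 4, [⟨4, 2, 2, 0⟩, ⟨12, 1, 1, 0⟩, ⟨26, 1, 1, 0⟩, ⟨21, 1, 1, 0⟩, ⟨34, 1, 1, 0⟩]⟩, ⟨6, 2, [⟨11, 0, 0, 0⟩]⟩,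
  ⟨6, 3, [⟨31, 1, 1, 0⟩]⟩, ⟨7, 2, [⟨2, 1, 1, 0⟩]⟩,
  ⟨7, 6, [⟨19, 1, 1, 0⟩, ⟨35, 0, 0, 0⟩, ⟨13, 0, 0, 0⟩, ⟨17, 2, 2, 0⟩]⟩, ⟨8, 4, [⟨7, 1, 1, 0⟩]⟩,
  ⟨8, 8, [⟨18, 1, 1, 0⟩, ⟨12, 2, 2, 0⟩, ⟨20, 1, 1, 0⟩, ⟨0, 2, 2, 0⟩]⟩, ⟨10, 2, [⟨7, 2, 2, 0⟩, ⟨0, 2, 2, 0⟩]⟩,
  ⟨10, 6, [⟨7, 2, 2, 0⟩, ⟨23, 2, 2, 0⟩, ⟨15, 2, 2, 0⟩, ⟨35, 1, 1, 0⟩]⟩, ⟨11, 4, [⟨6, 0, 0, 0⟩]⟩,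
  ⟨11, 6, [⟨29, 2, 2, 0⟩, ⟨26, 2, 2, 0⟩]⟩, ⟨12, 5, [⟨10, 0, 0, 0⟩]⟩]

def c12_5_p2 : List Item := [
  ⟨1, 0, [⟨10, 1, 1, 0⟩]⟩, ⟨1, 4, [⟨19, 2, 2, 0⟩, ⟨34, 2, 2, 0⟩, ⟨21, 2, 2, 0⟩, ⟨10, 2, 2, 0⟩]⟩,
  ⟨3, -1, [⟨11, 2, 2, 0⟩, ⟨10, 2, 2, 0⟩]⟩, ⟨3, 2, [⟨10, 2, 2, 0⟩, ⟨31, 2, 2, 0⟩, ⟨28, 1, 1, 0⟩]⟩,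
  ⟨4, 1, [⟨8, 1, 1, 0⟩]⟩, ⟨4, 4, [⟨30, 1, 1, 0⟩, ⟨35, 2, 2, 0⟩, ⟨16, 0, 0, 0⟩]⟩, ⟨5, 2, [⟨0, 0, 0, 0⟩]⟩,
  ⟨5, 3, [⟨33, 1, 1, 0⟩]⟩, ⟨6, 2, [⟨5, 1, 1, 0⟩]⟩, ⟨6, 4, [⟨24, 2, 2, 0⟩, ⟨32, 1, 1, 0⟩]⟩, ⟨7, 2, [⟨11, 1, 1, 0⟩]⟩,
  ⟨7, 5, [⟨30, 2, 2, 0⟩, ⟨32, 2, 2, 0⟩, ⟨8, 2, 2, 0⟩]⟩, ⟨9, 1, [⟨5, 2, 2, 0⟩, ⟨8, 2, 2, 0⟩]⟩,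
  ⟨9, 5, [⟨5, 2, 2, 0⟩, ⟨13, 1, 1, 0⟩, ⟨28, 2, 2, 0⟩, ⟨13, 2, 2, 0⟩]⟩, ⟨10, 3, [⟨9, 0, 0, 0⟩]⟩,
  ⟨10, 6, [⟨16, 1, 1, 0⟩, ⟨16, 2, 2, 0⟩, ⟨20, 2, 2, 0⟩]⟩, ⟨11, 4, [⟨1, 0, 0, 0⟩]⟩,
  ⟨11, 7, [⟨18, 2, 2, 0⟩, ⟨33, 2, 2, 0⟩, ⟨25, 2, 2, 0⟩]⟩, ⟨12, 5, [⟨7, 0, 0, 0⟩]⟩]

def c12_5_d0 : List Item := [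
  ⟨0, 6, [⟨27, 1, 0, 0⟩, ⟨13, 2, 1, 0⟩, ⟨14, 2, 1, 0⟩, ⟨10, 2, 1, 0⟩, ⟨7, 2, 1, 0⟩]⟩,
  ⟨3, -3, [⟨1, 1, 2, 0⟩, ⟨10, 2, 1, 0⟩, ⟨7, 2, 1, 0⟩]⟩,
  ⟨3, 8, [⟨1, 1, 2, 0⟩, ⟨10, 2, 1, 0⟩, ⟨22, 1, 0, 0⟩, ⟨14, 0, 2, 1⟩, ⟨30, 2, 1, 0⟩, ⟨24, 1, 0, 0⟩, ⟨14, 0, 1, 1⟩, ⟨8, 2, 1, 0⟩, ⟨12, 2, 1, 0⟩, ⟨11, 1, 2, 0⟩, ⟨8, 2, 1, 0⟩]⟩,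
  ⟨6, -2, [⟨9, 2, 1, 1⟩, ⟨11, 1, 2, 0⟩, ⟨8, 2, 1, 0⟩]⟩,
  ⟨6, 3, [⟨8, 2, 1, 0⟩, ⟨9, 2, 1, 1⟩, ⟨16, 1, 0, 0⟩, ⟨26, 1, 2, 1⟩, ⟨28, 2, 1, 0⟩]⟩]

def c12_5_d1 : List Item := [
  ⟨0, 3, [⟨24, 0, 2, 0⟩, ⟨9, 1, 0, 0⟩]⟩, ⟨2, -3, [⟨8, 0, 1, 0⟩, ⟨9, 1, 0, 0⟩]⟩,
  ⟨2, 2, [⟨8, 0, 1, 0⟩, ⟨13, 1, 0, 0⟩, ⟨8, 0, 1, 0⟩, ⟨13, 2, 0, 0⟩, ⟨20, 0, 2, 1⟩]⟩, ⟨3, 0, [⟨7, 0, 2, 0⟩]⟩,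
  ⟨3, 5, [⟨18, 2, 1, 0⟩, ⟨34, 0, 2, 0⟩, ⟨12, 2, 0, 0⟩, ⟨24, 1, 2, 0⟩, ⟨7, 0, 1, 0⟩]⟩,
  ⟨5, -1, [⟨6, 0, 1, 0⟩, ⟨7, 0, 1, 0⟩]⟩,
  ⟨5, 4, [⟨6, 0, 1, 0⟩, ⟨25, 0, 2, 1⟩, ⟨32, 2, 0, 0⟩, ⟨27, 2, 1, 1⟩, ⟨27, 2, 0, 1⟩]⟩, ⟨6, 2, [⟨9, 2, 0, 1⟩]⟩,
  ⟨6, 6, [⟨35, 2, 1, 1⟩, ⟨31, 1, 0, 1⟩, ⟨15, 2, 0, 0⟩, ⟨0, 1, 0, 1⟩]⟩, ⟨8, 0, [⟨5, 0, 1, 1⟩, ⟨0, 1, 0, 1⟩]⟩,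
  ⟨8, 6, [⟨5, 0, 1, 1⟩, ⟨23, 2, 1, 0⟩, ⟨5, 0, 1, 1⟩, ⟨33, 0, 2, 1⟩, ⟨29, 1, 0, 1⟩, ⟨21, 2, 1, 1⟩]⟩,
  ⟨9, 5, [⟨8, 0, 2, 1⟩]⟩, ⟨9, 9, [⟨17, 1, 0, 1⟩, ⟨18, 1, 0, 1⟩, ⟨2, 1, 2, 1⟩, ⟨3, 1, 2, 1⟩]⟩,
  ⟨12, 0, [⟨4, 2, 1, 1⟩, ⟨2, 1, 2, 1⟩, ⟨3, 1, 2, 1⟩]⟩,
  ⟨12, 5, [⟨4, 2, 1, 1⟩, ⟨2, 1, 2, 1⟩, ⟨12, 1, 0, 1⟩, ⟨19, 1, 0, 1⟩, ⟨18, 0, 2, 1⟩]⟩]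

def c12_5_m0 : List Item := [
  ⟨0, 3, [⟨23, 1, 0, 0⟩, ⟨10, 1, 0, 1⟩]⟩, ⟨2, -2, [⟨11, 1, 0, 0⟩, ⟨10, 1, 0, 1⟩]⟩,
  ⟨2, 2, [⟨10, 1, 0, 1⟩, ⟨20, 2, 1, 0⟩, ⟨30, 1, 0, 0⟩, ⟨21, 0, 2, 0⟩]⟩, ⟨3, 1, [⟨10, 2, 0, 1⟩]⟩,
  ⟨3, 3, [⟨35, 0, 2, 0⟩, ⟨31, 1, 2, 0⟩]⟩, ⟨4, 1, [⟨11, 0, 2, 0⟩]⟩, ⟨4, 3, [⟨32, 1, 0, 0⟩, ⟨34, 1, 2, 0⟩]⟩,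
  ⟨5, 1, [⟨0, 2, 0, 0⟩]⟩, ⟨5, 3, [⟨30, 2, 0, 0⟩, ⟨25, 0, 1, 1⟩]⟩, ⟨6, 2, [⟨2, 0, 2, 1⟩]⟩, ⟨6, 3, [⟨19, 1, 2, 0⟩]⟩]

def c12_5_m1 : List Item := [
  ⟨0, 2, [⟨16, 2, 1, 0⟩]⟩, ⟨1, 0, [⟨3, 2, 0, 0⟩]⟩,
  ⟨1, 6, [⟨32, 2, 1, 0⟩, ⟨34, 1, 0, 0⟩, ⟨22, 0, 2, 0⟩, ⟨17, 2, 0, 0⟩, ⟨5, 2, 1, 0⟩, ⟨0, 1, 2, 1⟩]⟩,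
  ⟨4, -3, [⟨6, 1, 2, 0⟩, ⟨5, 2, 1, 0⟩, ⟨0, 1, 2, 1⟩]⟩,
  ⟨4, 5, [⟨6, 1, 2, 0⟩, ⟨5, 2, 1, 0⟩, ⟨15, 0, 1, 0⟩, ⟨20, 0, 1, 1⟩, ⟨22, 1, 2, 0⟩, ⟨29, 2, 0, 0⟩, ⟨23, 0, 2, 1⟩, ⟨2, 1, 0, 0⟩]⟩,
  ⟨6, 0, [⟨4, 1, 0, 0⟩, ⟨2, 1, 0, 0⟩]⟩, ⟨6, 3, [⟨2, 1, 0, 0⟩, ⟨16, 2, 0, 0⟩, ⟨33, 1, 2, 1⟩]⟩]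

def c12_5_m2 : List Item := [
  ⟨0, 4, [⟨28, 0, 2, 0⟩, ⟨25, 2, 1, 0⟩, ⟨1, 0, 1, 0⟩]⟩, ⟨2, -2, [⟨3, 0, 1, 0⟩, ⟨1, 0, 1, 0⟩]⟩,
  ⟨2, 3, [⟨3, 0, 1, 0⟩, ⟨21, 1, 0, 0⟩, ⟨26, 0, 2, 1⟩, ⟨33, 0, 1, 0⟩, ⟨15, 1, 2, 1⟩]⟩, ⟨3, 1, [⟨1, 0, 2, 0⟩]⟩,
  ⟨3, 3, [⟨31, 2, 0, 1⟩, ⟨35, 1, 0, 0⟩]⟩, ⟨4, 1, [⟨4, 2, 0, 0⟩]⟩,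
  ⟨4, 4, [⟨26, 1, 0, 0⟩, ⟨29, 1, 2, 1⟩, ⟨17, 2, 1, 0⟩]⟩, ⟨5, 3, [⟨5, 0, 2, 1⟩]⟩, ⟨6, 1, [⟨6, 2, 0, 1⟩]⟩,
  ⟨6, 3, [⟨19, 2, 0, 1⟩, ⟨28, 1, 0, 1⟩]⟩]

def c12_5 : Cert := ⟨6, 3, 3, c12_5_F, c12_5_p0, c12_5_p1, c12_5_p2, c12_5_d0, c12_5_d1, c12_5_m0, c12_5_m1,
  c12_5_m2⟩

theorem c12_5_check : c12_5.check = true := by decide +kernel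


end Pool.Agent.RDF
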