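import Pool.Agent.RDF.Sym

namespace Pool.Agent.RDF

/-- families for `n = 12 k + 9` -/
def c12_9_F : List Fam := [
  ⟨1, -2, ⟨2, true, 2, 4, 1⟩, ⟨1, false, 9, 5, -1⟩, ⟨2, false, 0, 4, 2⟩⟩,
  ⟨1, -1, ⟨2, false, 4, 4, 1⟩, ⟨1, false, 10, 5, -1⟩, ⟨2, false, 7, 9, 2⟩⟩,
  ⟨1, -2, ⟨1, true, 7, 7, 1⟩, ⟨2, false, 7, 3, -1⟩, ⟨0, false, 7, 9, 2⟩⟩,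
  ⟨1, -1, ⟨1, false, 6, 7, 1⟩, ⟨1, false, 1, 0, -1⟩, ⟨1, false, 10, 12, 2⟩⟩,
  ⟨1, -1, ⟨1, true, 5, 5, 1⟩, ⟨1, false, 2, 0, -1⟩, ⟨1, false, 2, 5, 2⟩⟩,
  ⟨1, -1, ⟨0, true, 1, 2, 1⟩, ⟨0, false, 1, -1, -1⟩, ⟨1, false, 10, 11, 2⟩⟩,
  ⟨1, -1, ⟨0, true, 10, 8, 1⟩, ⟨1, false, 5, 2, -1⟩, ⟨0, false, 2, 3, 2⟩⟩,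
  ⟨1, -1, ⟨2, true, 5, 4, 1⟩, ⟨0, false, 5, 2, -1⟩, ⟨1, false, 2, 4, 2⟩⟩,
  ⟨1, -1, ⟨2, true, 9, 9, 1⟩, ⟨0, false, 6, 3, -1⟩, ⟨2, false, 0, 3, 2⟩⟩,
  ⟨1, -1, ⟨2, false, 11, 10, 1⟩, ⟨0, false, 7, 4, -1⟩, ⟨0, false, 7, 8, 2⟩⟩,
  ⟨1, -1, ⟨2, true, 3, 4, 1⟩, ⟨0, false, 10, 6, -1⟩, ⟨2, false, 7, 8, 2⟩⟩,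
  ⟨1, -1, ⟨0, true, 11, 9, 1⟩, ⟨2, false, 11, 6, -1⟩, ⟨0, false, 2, 4, 2⟩⟩,
  ⟨0, 1, ⟨0, false, 7, 7, 1⟩, ⟨0, false, 10, 7, 2⟩, ⟨1, false, 10, 10, 3⟩⟩,
  ⟨0, 1, ⟨0, false, 9, 5, 1⟩, ⟨1, false, 6, 6, 2⟩, ⟨2, false, 6, 5, 3⟩⟩,
  ⟨0, 1, ⟨0, false, 1, 0, 1⟩, ⟨2, false, 7, 7, 2⟩, ⟨2, true, 11, 9, 3⟩⟩,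
  ⟨0, 1, ⟨0, false, 4, 1, 1⟩, ⟨1, true, 4, 2, 2⟩, ⟨1, false, 7, 6, 3⟩⟩,
  ⟨0, 1, ⟨0, false, 12, 8, 1⟩, ⟨1, false, 0, 1, 2⟩, ⟨2, true, 7, 4, 3⟩⟩,
  ⟨0, 1, ⟨1, true, 2, 2, 1⟩, ⟨2, false, 0, 1, 2⟩, ⟨2, false, 0, 2, 3⟩⟩,
  ⟨0, 1, ⟨0, false, 2, 2, 1⟩, ⟨0, false, 11, 7, 2⟩, ⟨1, false, 8, 7, 3⟩⟩,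
  ⟨0, 1, ⟨0, false, 5, 4, 1⟩, ⟨1, false, 2, 3, 2⟩, ⟨2, true, 2, 1, 3⟩⟩,
  ⟨0, 1, ⟨0, true, 7, 6, 1⟩, ⟨1, false, 8, 6, 2⟩, ⟨2, false, 2, 3, 3⟩⟩,
  ⟨0, 1, ⟨1, true, 4, 3, 1⟩, ⟨1, false, 6, 4, 2⟩, ⟨2, false, 9, 8, 3⟩⟩,
  ⟨0, 1, ⟨1, false, 10, 7, 1⟩, ⟨1, false, 10, 9, 2⟩, ⟨2, true, 7, 6, 3⟩⟩,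
  ⟨0, 1, ⟨0, false, 5, 3, 1⟩, ⟨2, true, 2, 2, 2⟩, ⟨2, false, 9, 6, 3⟩⟩,
  ⟨0, 1, ⟨0, false, 9, 6, 1⟩, ⟨1, true, 10, 8, 2⟩, ⟨2, false, 3, 3, 3⟩⟩,
  ⟨0, 1, ⟨2, true, 3, 2, 1⟩, ⟨2, false, 6, 3, 2⟩, ⟨2, false, 11, 8, 3⟩⟩,
  ⟨0, 1, ⟨0, false, 4, 3, 1⟩, ⟨0, false, 11, 8, 2⟩, ⟨2, true, 11, 7, 3⟩⟩,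
  ⟨0, 1, ⟨0, false, 4, 2, 1⟩, ⟨0, false, 7, 5, 2⟩, ⟨1, false, 10, 6, 3⟩⟩,
  ⟨0, 1, ⟨2, false, 4, 3, 1⟩, ⟨2, true, 6, 4, 2⟩, ⟨2, false, 7, 5, 3⟩⟩,
  ⟨0, 1, ⟨1, false, 5, 4, 1⟩, ⟨1, false, 8, 5, 2⟩, ⟨2, true, 5, 3, 3⟩⟩,
  ⟨0, 1, ⟨0, false, 6, 5, 1⟩, ⟨1, false, 2, 1, 2⟩, ⟨2, true, 9, 7, 3⟩⟩,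
  ⟨0, 1, ⟨0, true, 1, 1, 1⟩, ⟨0, false, 9, 7, 2⟩, ⟨1, false, 6, 5, 3⟩⟩,
  ⟨0, 1, ⟨0, false, 2, 1, 1⟩, ⟨1, false, 5, 3, 2⟩, ⟨2, false, 2, 0, 3⟩⟩,
  ⟨0, 1, ⟨0, true, 6, 4, 1⟩, ⟨1, false, 1, 1, 2⟩, ⟨1, false, 9, 6, 3⟩⟩]

def c12_9_p0 : List Item := [
  ⟨1, 0, [⟨5, 1, 1, 0⟩]⟩, ⟨1, 2, [⟨14, 0, 0, 0⟩, ⟨31, 0, 0, 0⟩]⟩, ⟨2, 1, [⟨5, 0, 0, 0⟩]⟩,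
  ⟨2, 4, [⟨32, 0, 0, 0⟩, ⟨18, 0, 0, 0⟩, ⟨6, 2, 2, 0⟩]⟩, ⟨4, 0, [⟨11, 2, 2, 0⟩, ⟨6, 2, 2, 0⟩]⟩,
  ⟨4, 4, [⟨11, 2, 2, 0⟩, ⟨15, 0, 0, 0⟩, ⟨27, 0, 0, 0⟩, ⟨26, 0, 0, 0⟩]⟩, ⟨5, 3, [⟨7, 1, 1, 0⟩]⟩,
  ⟨5, 5, [⟨23, 0, 0, 0⟩, ⟨19, 0, 0, 0⟩]⟩, ⟨6, 4, [⟨8, 1, 1, 0⟩]⟩, ⟨6, 6, [⟨33, 0, 0, 0⟩, ⟨30, 0, 0, 0⟩]⟩,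
  ⟨7, 5, [⟨9, 1, 1, 0⟩]⟩, ⟨7, 9, [⟨27, 1, 1, 0⟩, ⟨20, 0, 0, 0⟩, ⟨12, 0, 0, 0⟩, ⟨9, 2, 2, 0⟩]⟩,
  ⟨9, 4, [⟨2, 2, 2, 0⟩, ⟨9, 2, 2, 0⟩]⟩, ⟨9, 8, [⟨9, 2, 2, 0⟩, ⟨13, 0, 0, 0⟩, ⟨24, 0, 0, 0⟩, ⟨31, 1, 1, 0⟩]⟩,
  ⟨10, 7, [⟨10, 1, 1, 0⟩]⟩, ⟨10, 8, [⟨12, 1, 1, 0⟩]⟩, ⟨11, 7, [⟨6, 0, 0, 0⟩]⟩,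
  ⟨11, 9, [⟨18, 1, 1, 0⟩, ⟨26, 1, 1, 0⟩]⟩, ⟨12, 8, [⟨11, 0, 0, 0⟩]⟩, ⟨12, 9, [⟨16, 0, 0, 0⟩]⟩]

def c12_9_p1 : List Item := [
  ⟨0, 2, [⟨16, 1, 1, 0⟩]⟩, ⟨1, 1, [⟨3, 1, 1, 0⟩]⟩, ⟨1, 2, [⟨33, 1, 1, 0⟩]⟩, ⟨2, 1, [⟨4, 1, 1, 0⟩]⟩,
  ⟨2, 5, [⟨30, 1, 1, 0⟩, ⟨17, 0, 0, 0⟩, ⟨19, 1, 1, 0⟩, ⟨7, 2, 2, 0⟩]⟩, ⟨4, 1, [⟨4, 2, 2, 0⟩, ⟨7, 2, 2, 0⟩]⟩,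
  ⟨4, 4, [⟨4, 2, 2, 0⟩, ⟨15, 1, 1, 0⟩, ⟨21, 0, 0, 0⟩]⟩, ⟨5, 3, [⟨6, 1, 1, 0⟩]⟩,
  ⟨5, 5, [⟨32, 1, 1, 0⟩, ⟨29, 0, 0, 0⟩]⟩, ⟨6, 4, [⟨4, 0, 0, 0⟩]⟩,
  ⟨6, 7, [⟨21, 1, 1, 0⟩, ⟨31, 2, 2, 0⟩, ⟨13, 1, 1, 0⟩]⟩, ⟨7, 6, [⟨3, 0, 0, 0⟩]⟩, ⟨7, 7, [⟨15, 2, 2, 0⟩]⟩,
  ⟨8, 5, [⟨2, 0, 0, 0⟩]⟩, ⟨8, 8, [⟨29, 1, 1, 0⟩, ⟨20, 1, 1, 0⟩, ⟨18, 2, 2, 0⟩]⟩, ⟨9, 6, [⟨0, 1, 1, 0⟩]⟩,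
  ⟨9, 7, [⟨33, 2, 2, 0⟩]⟩, ⟨10, 6, [⟨1, 1, 1, 0⟩]⟩,
  ⟨10, 12, [⟨27, 2, 2, 0⟩, ⟨22, 0, 0, 0⟩, ⟨24, 1, 1, 0⟩, ⟨22, 1, 1, 0⟩, ⟨12, 2, 2, 0⟩, ⟨5, 2, 2, 0⟩]⟩,
  ⟨12, 8, [⟨3, 2, 2, 0⟩, ⟨5, 2, 2, 0⟩]⟩, ⟨12, 9, [⟨3, 2, 2, 0⟩]⟩]

def c12_9_p2 : List Item := [
  ⟨0, 4, [⟨17, 1, 1, 0⟩, ⟨17, 2, 2, 0⟩, ⟨8, 2, 2, 0⟩]⟩, ⟨2, -1, [⟨0, 2, 2, 0⟩, ⟨8, 2, 2, 0⟩]⟩,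
  ⟨2, 4, [⟨8, 2, 2, 0⟩, ⟨32, 2, 2, 0⟩, ⟨19, 2, 2, 0⟩, ⟨23, 1, 1, 0⟩, ⟨20, 2, 2, 0⟩]⟩, ⟨3, 2, [⟨0, 0, 0, 0⟩]⟩,
  ⟨3, 4, [⟨25, 0, 0, 0⟩, ⟨24, 2, 2, 0⟩]⟩, ⟨4, 3, [⟨10, 0, 0, 0⟩]⟩, ⟨4, 4, [⟨28, 0, 0, 0⟩]⟩, ⟨5, 3, [⟨1, 0, 0, 0⟩]⟩,
  ⟨5, 4, [⟨29, 2, 2, 0⟩]⟩, ⟨6, 3, [⟨7, 0, 0, 0⟩]⟩, ⟨6, 6, [⟨25, 1, 1, 0⟩, ⟨28, 1, 1, 0⟩, ⟨13, 2, 2, 0⟩]⟩,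
  ⟨7, 4, [⟨2, 1, 1, 0⟩]⟩, ⟨7, 9, [⟨16, 2, 2, 0⟩, ⟨28, 2, 2, 0⟩, ⟨22, 2, 2, 0⟩, ⟨14, 1, 1, 0⟩, ⟨10, 2, 2, 0⟩]⟩,
  ⟨9, 5, [⟨1, 2, 2, 0⟩, ⟨10, 2, 2, 0⟩]⟩, ⟨9, 9, [⟨1, 2, 2, 0⟩, ⟨23, 2, 2, 0⟩, ⟨30, 2, 2, 0⟩, ⟨21, 2, 2, 0⟩]⟩,
  ⟨10, 8, [⟨8, 0, 0, 0⟩]⟩, ⟨11, 7, [⟨11, 1, 1, 0⟩]⟩, ⟨11, 10, [⟨26, 2, 2, 0⟩, ⟨25, 2, 2, 0⟩, ⟨14, 2, 2, 0⟩]⟩,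
  ⟨12, 9, [⟨9, 0, 0, 0⟩]⟩]

def c12_9_d0 : List Item := [
  ⟨0, 5, [⟨17, 2, 1, 0⟩, ⟨22, 1, 0, 0⟩, ⟨3, 1, 2, 1⟩, ⟨9, 2, 1, 0⟩]⟩,
  ⟨3, -2, [⟨4, 2, 1, 0⟩, ⟨3, 1, 2, 1⟩, ⟨9, 2, 1, 0⟩]⟩,
  ⟨3, 5, [⟨9, 2, 1, 0⟩, ⟨4, 2, 1, 0⟩, ⟨12, 1, 0, 0⟩, ⟨29, 1, 0, 0⟩, ⟨28, 2, 0, 0⟩, ⟨27, 1, 0, 0⟩, ⟨18, 0, 1, 1⟩]⟩,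
  ⟨4, 4, [⟨1, 2, 0, 0⟩]⟩, ⟨4, 5, [⟨33, 1, 2, 1⟩]⟩, ⟨5, 4, [⟨3, 2, 0, 0⟩]⟩,
  ⟨5, 7, [⟨26, 0, 1, 1⟩, ⟨25, 2, 1, 0⟩, ⟨3, 1, 0, 1⟩]⟩, ⟨6, 5, [⟨3, 0, 1, 0⟩, ⟨3, 1, 0, 1⟩]⟩]

def c12_9_d1 : List Item := [
  ⟨0, 6, [⟨32, 0, 2, 0⟩, ⟨16, 1, 0, 1⟩, ⟨12, 2, 1, 0⟩, ⟨10, 1, 2, 0⟩, ⟨6, 1, 2, 0⟩]⟩,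
  ⟨3, -2, [⟨2, 2, 1, 0⟩, ⟨10, 1, 2, 0⟩, ⟨6, 1, 2, 0⟩]⟩,
  ⟨3, 8, [⟨10, 1, 2, 0⟩, ⟨6, 1, 2, 0⟩, ⟨13, 0, 2, 0⟩, ⟨27, 2, 1, 0⟩, ⟨32, 1, 0, 0⟩, ⟨12, 2, 0, 0⟩, ⟨21, 2, 1, 0⟩, ⟨15, 2, 0, 0⟩, ⟨8, 1, 2, 0⟩, ⟨11, 2, 1, 1⟩]⟩,
  ⟨6, 0, [⟨0, 2, 1, 1⟩, ⟨8, 1, 2, 0⟩, ⟨11, 2, 1, 1⟩]⟩,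
  ⟨6, 8, [⟨8, 1, 2, 0⟩, ⟨11, 2, 1, 1⟩, ⟨14, 0, 1, 1⟩, ⟨24, 0, 2, 0⟩, ⟨27, 2, 0, 0⟩, ⟨18, 2, 0, 0⟩, ⟨20, 2, 1, 1⟩, ⟨9, 1, 0, 1⟩]⟩,
  ⟨8, 4, [⟨1, 0, 1, 1⟩, ⟨9, 1, 0, 1⟩]⟩, ⟨8, 7, [⟨1, 0, 1, 1⟩, ⟨30, 1, 0, 1⟩, ⟨23, 0, 2, 1⟩]⟩,
  ⟨9, 6, [⟨9, 2, 0, 1⟩]⟩,
  ⟨9, 13, [⟨32, 2, 1, 1⟩, ⟨31, 2, 1, 1⟩, ⟨19, 1, 0, 1⟩, ⟨18, 2, 1, 1⟩, ⟨13, 1, 0, 1⟩, ⟨7, 2, 1, 1⟩, ⟨5, 2, 1, 0⟩]⟩,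
  ⟨12, 6, [⟨1, 2, 1, 1⟩, ⟨7, 2, 1, 1⟩, ⟨5, 2, 1, 0⟩]⟩, ⟨12, 9, [⟨5, 2, 1, 0⟩, ⟨1, 2, 1, 1⟩, ⟨13, 2, 1, 1⟩]⟩]

def c12_9_m0 : List Item := [
  ⟨0, 4, [⟨29, 0, 2, 0⟩, ⟨19, 1, 2, 0⟩, ⟨5, 0, 1, 0⟩]⟩, ⟨2, -1, [⟨2, 0, 1, 0⟩, ⟨5, 0, 1, 0⟩]⟩,
  ⟨2, 2, [⟨5, 0, 1, 0⟩, ⟨17, 0, 2, 0⟩, ⟨17, 0, 1, 0⟩]⟩, ⟨3, 1, [⟨7, 0, 2, 0⟩]⟩,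
  ⟨3, 4, [⟨22, 0, 2, 0⟩, ⟨29, 1, 2, 0⟩, ⟨22, 1, 2, 0⟩]⟩, ⟨4, 3, [⟨11, 2, 0, 1⟩]⟩, ⟨4, 4, [⟨31, 0, 1, 1⟩]⟩,
  ⟨5, 3, [⟨6, 2, 0, 1⟩]⟩, ⟨5, 8, [⟨30, 1, 2, 1⟩, ⟨24, 2, 1, 1⟩, ⟨21, 2, 0, 0⟩, ⟨16, 1, 2, 1⟩, ⟨0, 1, 0, 0⟩]⟩,
  ⟨6, 5, [⟨0, 0, 1, 1⟩, ⟨0, 1, 0, 0⟩]⟩]

def c12_9_m1 : List Item := [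
  ⟨0, 2, [⟨15, 1, 0, 0⟩]⟩, ⟨1, 0, [⟨2, 2, 0, 0⟩]⟩, ⟨1, 3, [⟨20, 1, 0, 0⟩, ⟨28, 2, 1, 0⟩, ⟨24, 1, 0, 0⟩]⟩,
  ⟨2, 1, [⟨0, 0, 2, 0⟩]⟩, ⟨2, 2, [⟨28, 1, 0, 0⟩]⟩, ⟨3, 1, [⟨5, 0, 2, 1⟩]⟩, ⟨3, 3, [⟨25, 1, 0, 0⟩, ⟨33, 2, 0, 0⟩]⟩,
  ⟨4, 2, [⟨8, 2, 0, 1⟩]⟩, ⟨4, 4, [⟨14, 2, 1, 0⟩, ⟨25, 0, 2, 1⟩]⟩, ⟨5, 3, [⟨10, 2, 0, 0⟩]⟩,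
  ⟨5, 7, [⟨33, 0, 1, 0⟩, ⟨31, 2, 0, 0⟩, ⟨23, 1, 2, 1⟩, ⟨6, 0, 1, 0⟩]⟩, ⟨6, 5, [⟨6, 1, 0, 1⟩, ⟨6, 0, 1, 0⟩]⟩]

def c12_9_m2 : List Item := [
  ⟨0, 3, [⟨26, 1, 2, 0⟩, ⟨7, 0, 1, 0⟩]⟩, ⟨2, -1, [⟨11, 0, 1, 0⟩, ⟨7, 0, 1, 0⟩]⟩,
  ⟨2, 2, [⟨11, 0, 1, 0⟩, ⟨14, 0, 2, 1⟩, ⟨21, 1, 0, 0⟩]⟩, ⟨3, 1, [⟨4, 0, 2, 0⟩]⟩,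
  ⟨3, 6, [⟨23, 0, 1, 0⟩, ⟨30, 2, 0, 0⟩, ⟨19, 0, 2, 0⟩, ⟨15, 2, 1, 0⟩, ⟨4, 0, 1, 0⟩]⟩,
  ⟨5, 2, [⟨8, 0, 1, 0⟩, ⟨4, 0, 1, 0⟩]⟩,
  ⟨5, 7, [⟨8, 0, 1, 0⟩, ⟨20, 0, 2, 0⟩, ⟨16, 0, 2, 0⟩, ⟨26, 0, 2, 1⟩, ⟨10, 1, 0, 0⟩]⟩,
  ⟨6, 5, [⟨10, 0, 1, 1⟩, ⟨10, 1, 0, 0⟩]⟩]

def c12_9 : Cert := ⟨6, 5, 3, c12_9_F, c12_9_p0, c12_9_p1, c12_9_p2, c12_9_d0, c12_9_d1, c12_9_m0, c12_9_m1,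
  c12_9_m2⟩

theorem c12_9_check : c12_9.check = true := by decide +kernel


end Pool.Agent.RDF
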