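import Mathlib

/-!
MP_1678ab_co: definitions. `Dih` is the dihedral group of order 6 on `Z_2 × Z_3` with
`(a, b) + (c, d) = (a + c, (-1)^c b + d)`; `G V = Dih × V` for an additive group `V`; difference families of 3-subsets
of `G V` relative to `Dih × 0`; resolvability.
-/

namespace Pool.Agent.RDF

/-- the dihedral group of order 6, written additively on `Z_2 × Z_3` -/
@[ext] structure Dih where
  a : ZMod 2
  b : ZMod 3
deriving DecidableEq

/-- the pairs `(a, b)` -/
def Dih.equiv : Dih ≃ ZMod 2 × ZMod 3 where
  toFun x := (x.a, x.b)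
  invFun x := ⟨x.1, x.2⟩
  left_inv _ := rfl
  right_inv _ := rfl

instance : Fintype Dih := Fintype.ofEquiv _ Dih.equiv.symm

/-- `(a, b) + (c, d) = (a + c, (-1)^c b + d)` -/
instance : Add Dih := ⟨fun x y => ⟨x.a + y.a, (if y.a = 0 then x.b else -x.b) + y.b⟩⟩

instance : Zero Dih := ⟨⟨0, 0⟩⟩

/-- the inverse of `(a, b)` is `(0, -b)` if `a = 0`, and `(1, b)` if `a = 1` -/
instance : Neg Dih := ⟨fun x => ⟨x.a, if x.a = 0 then -x.b else x.b⟩⟩

instance : AddGroup Dih :=
  AddGroup.ofLeftAxioms (by decide) (by decide) (by decide)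

/-- the group `D × V` -/
abbrev G (V : Type*) : Type _ := Dih × V

section

variable {V : Type*} [AddCommGroup V]

/-- the list of differences `x - y` of different elements `x, y` of a finite set -/
def diffs [DecidableEq V] (B : Finset (G V)) : Multiset (G V) := B.offDiag.val.map fun x => x.1 - x.2

/-- the subgroup `H = D × 0` -/
def H (V : Type*) [AddCommGroup V] : AddSubgroup (G V) := AddSubgroup.prod ⊤ ⊥

/-- a `(G, H, 3, 1)` difference family: a family of 3-subsets of `G` such that each element of `G ∖ H` occurs exactly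
once as a difference, and no element of `H` occurs -/
def IsDF [DecidableEq V] (F : Multiset (Finset (G V))) : Prop :=
  (∀ B ∈ F, B.card = 3) ∧ (∀ g ∈ H V, (F.bind diffs).count g = 0) ∧ ∀ g ∉ H V, (F.bind diffs).count g = 1

open Classical in
/-- `F` is `J`-resolvable: the multiset union of the blocks is a complete system of representatives for the left
cosets `g + J` which are not contained in `H` -/
def Resolvable (J : AddSubgroup (G V)) (F : Multiset (Finset (G V))) : Prop :=
  (∀ g ∈ H V, ((F.bind fun B => B.val).filter fun x => -g + x ∈ J).card = 0) ∧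
    ∀ g ∉ H V, ((F.bind fun B => B.val).filter fun x => -g + x ∈ J).card = 1

/-- a `(D × V, D × 0, 3, 1)`-RDF: a difference family which is `J`-resolvable for some subgroup `J` of order two of
`H` -/
def IsRDF [DecidableEq V] (F : Multiset (Finset (G V))) : Prop :=
  IsDF F ∧ ∃ J : AddSubgroup (G V), J ≤ H V ∧ Nat.card J = 2 ∧ Resolvable J F

end

end Pool.Agent.RDF
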