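import Pool.Agent.RDF.Reduce

/-!
MP_1678ab_co: coverage conditions with integers, and the transfer to `F_p × F_q`.
-/

namespace Pool.Agent.RDF

/-- a point with integral coordinates: label, colour, value -/
structure IPt where
  l : ℕ
  c : Bool
  v : ℤ

/-- columns: points of label `l`; `δ = 0`; `δ = 1`; mixed differences with label sum `g` -/
inductive Col
  | pt (l : ℕ)
  | d0
  | d1
  | mx (g : ℕ)
deriving DecidableEq

/-- the ordered pair `(i, j)` of points of a block is relevant for the column -/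
def Col.rel : Col → (li lj : ℕ) → (ci cj : Bool) → Bool
  | .pt l, li, _, _, _ => li % 3 == l
  | .d0, li, lj, ci, cj => ci == cj && li % 3 == lj % 3
  | .d1, li, lj, ci, cj => ci == cj && li % 3 == (lj + 1) % 3
  | .mx g, li, lj, ci, cj => (ci != cj) && (li + lj) % 3 == g

/-- the value of the pair in the column: value of the first point, or the difference -/
def Col.val : Col → (vi vj : ℤ) → ℤ
  | .pt _, vi, _ => vi
  | _, vi, vj => vi - vj

/-- the column is covered on `1 ≤ v < e` modulo `n` -/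
def ColCov (n : ℤ) (L : List (Fin 3 → IPt)) (col : Col) (e : ℤ) : Prop :=
  ∀ v : ℤ, 1 ≤ v → v < e → ∃ b ∈ L, ∃ i j, col.rel (b i).l (b j).l (b i).c (b j).c = true ∧
    n ∣ col.val (b i).v (b j).v - v

/-- all columns are covered, `n = 2 h - 1` -/
structure ICovers (h : ℤ) (L : List (Fin 3 → IPt)) : Prop where
  len : (L.length : ℤ) + 1 = 2 * h - 1
  pt : ∀ l < 3, ColCov (2 * h - 1) L (.pt l) (2 * h - 1)
  d0 : ColCov (2 * h - 1) L .d0 h
  d1 : ColCov (2 * h - 1) L .d1 (2 * h - 1)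
  mx : ∀ g < 3, ColCov (2 * h - 1) L (.mx g) h

/-- the image of a point in `V` -/
def IPt.map {V : Type*} (f : ℤ → V) (x : IPt) : Pt V := ⟨if x.c then 1 else 0, (x.l : ZMod 3), f x.v⟩

theorem ite_inj (a b : Bool) : ((if a then 1 else 0 : ZMod 2) = if b then 1 else 0) ↔ a = b := by
  revert a b
  decide

theorem cast3 (a b : ℕ) : ((a : ZMod 3) = (b : ZMod 3)) ↔ a % 3 = b % 3 := by
  rw [ZMod.natCast_eq_natCast_iff]
  rfl

theorem ICovers.covers {V : Type*} [AddCommGroup V] [Fintype V] {h : ℤ} {L : List (Fin 3 → IPt)} (hL : ICovers h L)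
    (f : ℤ →+ V) (hf : Function.Surjective f) (hn : f (2 * h - 1) = 0) (hc : (Fintype.card V : ℤ) = 2 * h - 1) :
    Covers (L.map fun b i => (b i).map f) := by
  have hpos : 0 < 2 * h - 1 := by
    rw [← hc]
    exact_mod_cast Fintype.card_pos
  have hdvd : ∀ a b : ℤ, (2 * h - 1) ∣ a - b → f a = f b := by
    rintro a b ⟨c, hc⟩
    rw [← sub_eq_zero, ← map_sub, hc, mul_comm, ← smul_eq_mul, map_zsmul, hn, smul_zero]
  have rep : ∀ w : V, w ≠ 0 → ∃ z : ℤ, 1 ≤ z ∧ z < 2 * h - 1 ∧ f z = w := by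
    intro w hw
    obtain ⟨z, rfl⟩ := hf w
    have h1 : f (z % (2 * h - 1)) = f z := hdvd _ _ (by
      refine ⟨-(z / (2 * h - 1)), ?_⟩
      have := Int.emod_add_mul_ediv z (2 * h - 1)
      linear_combination this)
    refine ⟨z % (2 * h - 1), ?_, Int.emod_lt_of_pos _ hpos, h1⟩
    have h2 := Int.emod_nonneg z hpos.ne'
    rcases h2.lt_or_eq with h3 | h3
    · omega
    · rw [← h3, map_zero] at h1
      exact absurd h1.symm hw
  have fold : ∀ w : V, w ≠ 0 → ∃ z : ℤ, 1 ≤ z ∧ z < h ∧ (f z = w ∨ f z = -w) := by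
    intro w hw
    obtain ⟨z, h1, h2, h3⟩ := rep w hw
    by_cases h4 : z < h
    · exact ⟨z, h1, h4, Or.inl h3⟩
    · refine ⟨2 * h - 1 - z, by omega, by omega, Or.inr ?_⟩
      rw [map_sub, hn, zero_sub, h3]
  have hmem : ∀ b ∈ L, (fun i => (b i).map f) ∈ L.map fun b i => (b i).map f := fun b hb =>
    List.mem_map.2 ⟨b, hb, rfl⟩
  refine ⟨?_, ?_, ?_, ?_, ?_⟩
  · rw [List.length_map]
    have := hL.len
    rw [← hc] at this
    exact_mod_cast this
  · intro l v hv
    obtain ⟨z, h1, h2, h3⟩ := rep v hv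
    obtain ⟨b, hb, i, j, h4, h5⟩ := hL.pt l.val (ZMod.val_lt l) z h1 h2
    refine ⟨_, hmem b hb, i, ?_, ?_⟩
    · change ((b i).l : ZMod 3) = l
      have h6 : (b i).l % 3 = l.val := by
        simpa [Col.rel] using h4
      rw [← ZMod.natCast_zmod_val l, cast3, h6, Nat.mod_eq_of_lt (ZMod.val_lt l)]
    · change f (b i).v = v
      rw [← h3]
      exact hdvd _ _ h5
  · intro w hw
    obtain ⟨z, h1, h2, h3⟩ := fold w hw
    obtain ⟨b, hb, i, j, h4, h5⟩ := hL.d0 z h1 h2
    have h6 : (b i).c = (b j).c ∧ (b i).l % 3 = (b j).l % 3 := by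
      simpa [Col.rel] using h4
    refine ⟨_, hmem b hb, i, j, ?_, ?_, ?_⟩
    · exact (ite_inj _ _).2 h6.1
    · exact (cast3 _ _).2 h6.2
    · change f (b i).v - f (b j).v = w ∨ f (b i).v - f (b j).v = -w
      have h7 : f ((b i).v - (b j).v) = f z := hdvd _ _ h5
      rw [← map_sub, h7]
      exact h3
  · intro w hw
    obtain ⟨z, h1, h2, h3⟩ := rep w hw
    obtain ⟨b, hb, i, j, h4, h5⟩ := hL.d1 z h1 h2
    have h6 : (b i).c = (b j).c ∧ (b i).l % 3 = ((b j).l + 1) % 3 := by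
      simpa [Col.rel] using h4
    refine ⟨_, hmem b hb, i, j, ?_, ?_, ?_⟩
    · exact (ite_inj _ _).2 h6.1
    · change ((b i).l : ZMod 3) - ((b j).l : ZMod 3) = 1
      rw [(cast3 _ _).2 h6.2, Nat.cast_add, Nat.cast_one, add_sub_cancel_left]
    · change f (b i).v - f (b j).v = w
      have h7 : f ((b i).v - (b j).v) = f z := hdvd _ _ h5
      rw [← map_sub, h7]
      exact h3
  · intro g w hw
    obtain ⟨z, h1, h2, h3⟩ := fold w hw
    obtain ⟨b, hb, i, j, h4, h5⟩ := hL.mx g.val (ZMod.val_lt g) z h1 h2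
    have h6 : (b i).c ≠ (b j).c ∧ ((b i).l + (b j).l) % 3 = g.val := by
      simpa [Col.rel] using h4
    refine ⟨_, hmem b hb, i, j, ?_, ?_, ?_⟩
    · exact fun h => h6.1 ((ite_inj _ _).1 h)
    · change ((b i).l : ZMod 3) + ((b j).l : ZMod 3) = g
      rw [← Nat.cast_add, ← ZMod.natCast_zmod_val g, cast3, h6.2, Nat.mod_eq_of_lt (ZMod.val_lt g)]
    · change f (b i).v - f (b j).v = w ∨ f (b i).v - f (b j).v = -w
      have h7 : f ((b i).v - (b j).v) = f z := hdvd _ _ h5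
      rw [← map_sub, h7]
      exact h3

/-- there is an integral covering list for `n = 2 h - 1` -/
def HasCover (h : ℤ) : Prop := ∃ L : List (Fin 3 → IPt), ICovers h L

theorem rdf_of_hasCover {p q : ℕ} (hp : p.Prime) (hq : q.Prime) (hpq : p ≠ q) {h : ℤ}
    (hn : ((p * q : ℕ) : ℤ) = 2 * h - 1) (hc : HasCover h) :
    ∃ F : Multiset (Finset (G (ZMod p × ZMod q))), IsRDF F := by
  have : NeZero p := ⟨hp.ne_zero⟩
  have : NeZero q := ⟨hq.ne_zero⟩
  obtain ⟨L, hL⟩ := hc
  have hcop : Nat.Coprime p q := (Nat.coprime_primes hp hq).2 hpq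
  refine ⟨_, (hL.covers (V := ZMod p × ZMod q) (Int.castAddHom (ZMod p × ZMod q)) ?_ ?_ ?_).isRDF⟩
  · intro w
    obtain ⟨z, hz⟩ := ZMod.intCast_surjective ((ZMod.chineseRemainder hcop).symm w)
    refine ⟨z, ?_⟩
    have h1 := congrArg (ZMod.chineseRemainder hcop) hz
    rw [RingEquiv.apply_symm_apply, map_intCast] at h1
    exact h1
  · rw [← hn]
    change (((p * q : ℕ) : ℤ) : ZMod p × ZMod q) = 0
    refine Prod.ext ?_ ?_
    · simp
    · simp
  · rw [← hn, Fintype.card_prod, ZMod.card, ZMod.card]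

end Pool.Agent.RDF
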