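import Pool.Agent.RDF.Small

namespace Pool.Agent.RDF

/-- an RDF for `n = 5` -/
def small5 : List SBlk := [
  ⟨8, 16, 22⟩, ⟨20, 27, 10⟩, ⟨6, 24, 15⟩, ⟨13, 18, 28⟩]

theorem small5_ok : smallOk 3 small5 = true := by decide +kernel

/-- an RDF for `n = 9` -/
def small9 : List SBlk := [
  ⟨14, 34, 40⟩, ⟨6, 18, 28⟩, ⟨32, 50, 11⟩, ⟨25, 30, 38⟩, ⟨37, 20, 52⟩, ⟨12, 42, 23⟩, ⟨48, 8, 45⟩, ⟨26, 16, 47⟩]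

theorem small9_ok : smallOk 5 small9 = true := by decide +kernel

/-- an RDF for `n = 13` -/
def small13 : List SBlk := [
  ⟨8, 14, 63⟩, ⟨32, 74, 40⟩, ⟨72, 39, 16⟩, ⟨60, 10, 76⟩, ⟨48, 34, 59⟩, ⟨26, 45, 56⟩, ⟨36, 69, 28⟩, ⟨6, 13, 30⟩,
  ⟨46, 53, 64⟩, ⟨18, 67, 50⟩, ⟨24, 20, 70⟩, ⟨42, 55, 22⟩]

theorem small13_ok : smallOk 7 small13 = true := by decide +kernel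

/-- an RDF for `n = 17` -/
def small17 : List SBlk := [
  ⟨48, 54, 81⟩, ⟨38, 56, 92⟩, ⟨32, 69, 94⟩, ⟨91, 26, 46⟩, ⟨42, 41, 52⟩, ⟨84, 96, 58⟩, ⟨19, 72, 100⟩, ⟨9, 20, 50⟩,
  ⟨78, 34, 76⟩, ⟨44, 11, 16⟩, ⟨6, 67, 88⟩, ⟨62, 86, 71⟩, ⟨30, 22, 65⟩, ⟨12, 99, 28⟩, ⟨25, 36, 74⟩, ⟨60, 14, 82⟩]

theorem small17_ok : smallOk 9 small17 = true := by decide +kernel

/-- an RDF for `n = 21` -/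
def small21 : List SBlk := [
  ⟨36, 42, 10⟩, ⟨46, 59, 118⟩, ⟨7, 26, 50⟩, ⟨72, 44, 100⟩, ⟨29, 52, 64⟩, ⟨120, 68, 17⟩, ⟨20, 86, 93⟩,
  ⟨78, 97, 108⟩, ⟨74, 123, 88⟩, ⟨12, 9, 104⟩, ⟨90, 110, 71⟩, ⟨49, 94, 112⟩, ⟨32, 40, 82⟩, ⟨25, 102, 56⟩,
  ⟨81, 116, 106⟩, ⟨84, 15, 22⟩, ⟨30, 61, 76⟩, ⟨18, 66, 62⟩, ⟨54, 115, 38⟩, ⟨98, 34, 124⟩]

theorem small21_ok : smallOk 11 small21 = true := by decide +kernel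

/-- an RDF for `n = 25` -/
def small25 : List SBlk := [
  ⟨30, 36, 75⟩, ⟨80, 93, 140⟩, ⟨69, 82, 100⟩, ⟨12, 114, 95⟩, ⟨90, 104, 53⟩, ⟨18, 102, 27⟩, ⟨72, 146, 107⟩,
  ⟨28, 40, 131⟩, ⟨24, 57, 142⟩, ⟨60, 45, 124⟩, ⟨109, 86, 16⟩, ⟨78, 23, 118⟩, ⟨132, 14, 110⟩, ⟨84, 121, 38⟩,
  ⟨33, 116, 10⟩, ⟨6, 55, 76⟩, ⟨42, 49, 88⟩, ⟨66, 122, 65⟩, ⟨128, 112, 136⟩, ⟨62, 47, 58⟩, ⟨144, 20, 134⟩,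
  ⟨96, 126, 34⟩, ⟨138, 8, 50⟩, ⟨98, 70, 148⟩]

theorem small25_ok : smallOk 13 small25 = true := by decide +kernel

/-- an RDF for `n = 29` -/
def small29 : List SBlk := [
  ⟨12, 44, 50⟩, ⟨100, 142, 166⟩, ⟨86, 164, 137⟩, ⟨8, 28, 113⟩, ⟨102, 68, 35⟩, ⟨78, 114, 121⟩, ⟨132, 144, 56⟩,
  ⟨42, 109, 92⟩, ⟨84, 80, 95⟩, ⟨24, 128, 22⟩, ⟨55, 110, 158⟩, ⟨122, 71, 82⟩, ⟨39, 146, 64⟩, ⟨20, 134, 153⟩,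
  ⟨30, 140, 59⟩, ⟨6, 150, 32⟩, ⟨156, 10, 47⟩, ⟨96, 17, 160⟩, ⟨60, 77, 118⟩, ⟨168, 74, 105⟩, ⟨19, 36, 98⟩,
  ⟨52, 154, 172⟩, ⟨162, 116, 171⟩, ⟨49, 126, 26⟩, ⟨66, 88, 149⟩, ⟨90, 62, 106⟩, ⟨73, 40, 124⟩, ⟨138, 15, 130⟩]

theorem small29_ok : smallOk 15 small29 = true := by decide +kernel

/-- an RDF for `n = 33` -/
def small33 : List SBlk := [
  ⟨12, 18, 148⟩, ⟨102, 76, 184⟩, ⟨8, 32, 74⟩, ⟨6, 66, 62⟩, ⟨90, 52, 167⟩, ⟨105, 70, 190⟩, ⟨72, 29, 178⟩,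
  ⟨49, 44, 58⟩, ⟨144, 98, 11⟩, ⟨84, 141, 40⟩, ⟨127, 56, 170⟩, ⟨114, 121, 162⟩, ⟨78, 86, 117⟩, ⟨193, 92, 112⟩,
  ⟨30, 146, 172⟩, ⟨39, 128, 118⟩, ⟨24, 96, 151⟩, ⟨46, 65, 142⟩, ⟨133, 100, 154⟩, ⟨158, 106, 131⟩, ⟨156, 21, 196⟩,
  ⟨15, 26, 188⟩, ⟨181, 50, 88⟩, ⟨37, 68, 160⟩, ⟨108, 194, 136⟩, ⟨42, 61, 152⟩, ⟨138, 168, 16⟩, ⟨164, 182, 35⟩,
  ⟨54, 134, 125⟩, ⟨174, 80, 23⟩, ⟨186, 122, 177⟩, ⟨110, 82, 94⟩]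

theorem small33_ok : smallOk 17 small33 = true := by decide +kernel

/-- an RDF for `n = 37` -/
def small37 : List SBlk := [
  ⟨12, 18, 153⟩, ⟨72, 216, 148⟩, ⟨174, 210, 219⟩, ⟨62, 116, 182⟩, ⟨50, 47, 76⟩, ⟨6, 61, 100⟩, ⟨192, 39, 110⟩,
  ⟨103, 164, 118⟩, ⟨114, 186, 130⟩, ⟨145, 168, 124⟩, ⟨96, 205, 134⟩, ⟨14, 146, 22⟩, ⟨132, 106, 221⟩,
  ⟨98, 122, 82⟩, ⟨79, 150, 206⟩, ⟨24, 129, 88⟩, ⟨37, 34, 196⟩, ⟨54, 162, 190⟩, ⟨198, 86, 71⟩, ⟨48, 27, 160⟩,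
  ⟨68, 64, 112⟩, ⟨156, 40, 53⟩, ⟨188, 155, 208⟩, ⟨30, 43, 126⟩, ⟨177, 194, 58⟩, ⟨67, 104, 172⟩, ⟨181, 200, 214⟩,
  ⟨84, 142, 184⟩, ⟨20, 32, 75⟩, ⟨9, 136, 166⟩, ⟨108, 212, 178⟩, ⟨81, 140, 158⟩, ⟨171, 10, 94⟩, ⟨56, 29, 202⟩,
  ⟨90, 139, 16⟩, ⟨120, 45, 92⟩]

theorem small37_ok : smallOk 19 small37 = true := by decide +kernel

end Pool.Agent.RDF
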