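import Pool.Agent.RDF.C1
import Pool.Agent.RDF.C5
import Pool.Agent.RDF.C9
import Pool.Agent.RDF.SmallA

/-!
MP_1678ab_co: resolvable difference families over `D × Z_n` for all `n = 1 mod 4`.
-/

namespace Pool.Agent.RDF

/-- a covering list exists for all `n = 1 mod 4`, `n ≥ 5` (here `n = 2 h - 1`, `h` odd, `h ≥ 3`) -/
theorem hasCover_all (h : ℕ) (h1 : h % 2 = 1) (h3 : 3 ≤ h) : HasCover (h : ℤ) := by
  by_cases hs : h ≤ 19
  · interval_cases h
    all_goals first
      | exact small_hasCover small5_ok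
      | exact small_hasCover small9_ok
      | exact small_hasCover small13_ok
      | exact small_hasCover small17_ok
      | exact small_hasCover small21_ok
      | exact small_hasCover small25_ok
      | exact small_hasCover small29_ok
      | exact small_hasCover small33_ok
      | exact small_hasCover small37_ok
      | (exfalso; revert h1; decide)
  · have h6 : h % 6 = 1 ∨ h % 6 = 3 ∨ h % 6 = 5 := by omega
    rcases h6 with h6 | h6 | h6
    · have e : (h : ℤ) = c12_1.H * ((h / 6 : ℕ) : ℤ) + c12_1.h := by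
        change (h : ℤ) = 6 * ((h / 6 : ℕ) : ℤ) + 1
        omega
      rw [e]
      exact Cert.hasCover c12_1_check (by change (4 : ℤ) ≤ _; omega)
    · have e : (h : ℤ) = c12_5.H * ((h / 6 : ℕ) : ℤ) + c12_5.h := by
        change (h : ℤ) = 6 * ((h / 6 : ℕ) : ℤ) + 3
        omega
      rw [e]
      exact Cert.hasCover c12_5_check (by change (3 : ℤ) ≤ _; omega)
    · have e : (h : ℤ) = c12_9.H * ((h / 6 : ℕ) : ℤ) + c12_9.h := by
        change (h : ℤ) = 6 * ((h / 6 : ℕ) : ℤ) + 5
        omega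
      rw [e]
      exact Cert.hasCover c12_9_check (by change (3 : ℤ) ≤ _; omega)

/-- for all `n = 1 mod 4` there is a `(D × Z_n, D × 0, 3, 1)`-RDF -/
theorem exists_rdf_cyclic (n : ℕ) (hn : n % 4 = 1) : ∃ F : Multiset (Finset (G (ZMod n))), IsRDF F := by
  have : NeZero n := ⟨by omega⟩
  by_cases h1 : n = 1
  · subst h1
    have hc : Covers (V := ZMod 1) [] := by
      have key : ∀ v : ZMod 1, v ≠ 0 → False := fun v hv => hv (Subsingleton.elim _ _)
      exact ⟨rfl, fun _ v hv => (key v hv).elim, fun v hv => (key v hv).elim, fun v hv => (key v hv).elim,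
        fun _ v hv => (key v hv).elim⟩
    exact ⟨_, hc.isRDF⟩
  · obtain ⟨L, hL⟩ := hasCover_all ((n + 1) / 2) (by omega) (by omega)
    have e : ((n : ℕ) : ℤ) = 2 * (((n + 1) / 2 : ℕ) : ℤ) - 1 := by omega
    refine ⟨_, (hL.covers (V := ZMod n) (Int.castAddHom (ZMod n)) ZMod.intCast_surjective ?_ ?_).isRDF⟩
    · rw [← e]
      simp
    · rw [← e, ZMod.card]

/-- for distinct primes `p, q = 3 mod 4` there is a `(D × V_{pq}, D × V_1, 3, 1)`-RDF -/
theorem exists_rdf_pq {p q : ℕ} (hp : p.Prime) (hq : q.Prime) (hpq : p ≠ q) (h3p : p % 4 = 3) (h3q : q % 4 = 3) :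
    ∃ F : Multiset (Finset (G (ZMod p × ZMod q))), IsRDF F := by
  have h4 : (p * q) % 4 = 1 := by rw [Nat.mul_mod, h3p, h3q]
  have h5 : 3 * 3 ≤ p * q := Nat.mul_le_mul (by omega) (by omega)
  exact rdf_of_hasCover hp hq hpq (h := (((p * q + 1) / 2 : ℕ) : ℤ)) (by omega)
    (hasCover_all ((p * q + 1) / 2) (by omega) (by omega))

end Pool.Agent.RDF
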