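import Pool.Agent.RDF.Defs

/-!
MP_1678ab_co: a list of `|V| - 1` labelled triples which covers all labels and all differences gives an RDF.
-/

set_option linter.unusedSectionVars false

namespace Pool.Agent.RDF

/-- a labelled point: colour, label in `Z_3`, element of `V` -/
structure Pt (V : Type*) where
  c : ZMod 2
  l : ZMod 3
  v : V

/-- the element of `D × V` with colour `c` and label `l = (-1)^c b` -/
def Pt.toG {V : Type*} (x : Pt V) : G V := (⟨x.c, if x.c = 0 then x.l else -x.l⟩, x.v)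

/-- the label of an element -/
def lab {V : Type*} (g : G V) : ZMod 3 × V := (if g.1.a = 0 then g.1.b else -g.1.b, g.2)

theorem lab_toG {V : Type*} (x : Pt V) : lab x.toG = (x.l, x.v) := by
  unfold lab Pt.toG
  by_cases h : x.c = 0
  · simp [h]
  · simp [h]

theorem dih_same (c : ZMod 2) (l l' : ZMod 3) :
    (⟨c, if c = 0 then l else -l⟩ : Dih) - ⟨c, if c = 0 then l' else -l'⟩ = ⟨0, l - l'⟩ := by
  revert c l l'
  decide

theorem dih_mixed (c c' : ZMod 2) (hc : c ≠ c') (l l' : ZMod 3) :
    (⟨c, if c = 0 then l else -l⟩ : Dih) - ⟨c', if c' = 0 then l' else -l'⟩ = ⟨1, -(l + l')⟩ := by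
  revert c c' l l'
  decide

theorem mem_J_iff (g x : Dih) : (-g + x = 0 ∨ -g + x = ⟨1, 0⟩) ↔
    (if g.a = 0 then g.b else -g.b) = (if x.a = 0 then x.b else -x.b) := by
  revert g x
  decide

section

variable {V : Type*} [AddCommGroup V]

theorem toG_sub_same {x y : Pt V} (h : x.c = y.c) : x.toG - y.toG = (⟨0, x.l - y.l⟩, x.v - y.v) := by
  obtain ⟨c, l, v⟩ := x
  obtain ⟨c', l', v'⟩ := y
  simp only at h
  subst h
  exact Prod.ext (dih_same c l l') rfl

theorem toG_sub_mixed {x y : Pt V} (h : x.c ≠ y.c) : x.toG - y.toG = (⟨1, -(x.l + y.l)⟩, x.v - y.v) := by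
  obtain ⟨c, l, v⟩ := x
  obtain ⟨c', l', v'⟩ := y
  exact Prod.ext (dih_mixed c c' h l l') rfl

/-- the coverage conditions on a list of triples -/
structure Covers [Fintype V] (L : List (Fin 3 → Pt V)) : Prop where
  len : L.length + 1 = Fintype.card V
  pt : ∀ (l : ZMod 3) (v : V), v ≠ 0 → ∃ b ∈ L, ∃ i, (b i).l = l ∧ (b i).v = v
  d0 : ∀ w : V, w ≠ 0 → ∃ b ∈ L, ∃ i j, (b i).c = (b j).c ∧ (b i).l = (b j).l ∧
    ((b i).v - (b j).v = w ∨ (b i).v - (b j).v = -w)
  d1 : ∀ w : V, w ≠ 0 → ∃ b ∈ L, ∃ i j, (b i).c = (b j).c ∧ (b i).l - (b j).l = 1 ∧ (b i).v - (b j).v = w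
  mx : ∀ (g : ZMod 3) (w : V), w ≠ 0 → ∃ b ∈ L, ∃ i j, (b i).c ≠ (b j).c ∧ (b i).l + (b j).l = g ∧
    ((b i).v - (b j).v = w ∨ (b i).v - (b j).v = -w)

/-- the ordered pairs of different indices -/
def pairs : List (Fin 3 × Fin 3) := [(0, 1), (0, 2), (1, 0), (1, 2), (2, 0), (2, 1)]

theorem mem_pairs {i j : Fin 3} (h : i ≠ j) : (i, j) ∈ pairs := by
  revert i j
  decide

/-- all differences of a triple -/
def tdiffs (b : Fin 3 → Pt V) : List (G V) := pairs.map fun x => (b x.1).toG - (b x.2).toG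

theorem multiset_eq_of_cover {α : Type*} [DecidableEq α] (S : Multiset α) (T : Finset α) (h : ∀ x ∈ T, x ∈ S)
    (hc : S.card ≤ T.card) : S = T.val := by
  symm
  apply Multiset.eq_of_le_of_card_le
  · rw [Multiset.le_iff_subset T.nodup]
    intro x hx
    exact h x hx
  · rw [Finset.card_val]
    exact hc

variable [DecidableEq V] [Fintype V]

/-- the complement of `H` -/
def offH (V : Type*) [AddCommGroup V] [DecidableEq V] [Fintype V] : Finset (G V) :=
  Finset.univ.filter fun g : G V => g.2 ≠ 0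

theorem mem_offH {g : G V} : g ∈ offH V ↔ g ∉ H V := by
  unfold offH H
  rw [Finset.mem_filter, AddSubgroup.mem_prod, AddSubgroup.mem_bot]
  simp

theorem card_offH : (offH V).card = 6 * (Fintype.card V - 1) := by
  have h : offH V = (Finset.univ : Finset Dih) ×ˢ (Finset.univ.erase (0 : V)) := by
    ext ⟨d, v⟩
    unfold offH
    simp
  rw [h, Finset.card_product, Finset.card_erase_of_mem (Finset.mem_univ _), Finset.card_univ, Finset.card_univ]
  rfl

theorem Covers.diff_mem {L : List (Fin 3 → Pt V)} (hL : Covers L) {g : G V} (hg : g.2 ≠ 0) :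
    ∃ b ∈ L, g ∈ tdiffs b := by
  have key : ∀ b ∈ L, ∀ i j, (b i).toG - (b j).toG = g → ∃ b ∈ L, g ∈ tdiffs b := by
    intro b hb i j h
    refine ⟨b, hb, ?_⟩
    unfold tdiffs
    rw [List.mem_map]
    refine ⟨(i, j), mem_pairs ?_, h⟩
    rintro rfl
    rw [sub_self] at h
    rw [← h] at hg
    exact hg rfl
  obtain ⟨⟨a, δ⟩, w⟩ := g
  change w ≠ 0 at hg
  have ha : a = 0 ∨ a = 1 := by
    clear key
    revert a
    decide
  have hδ : δ = 0 ∨ δ = 1 ∨ δ = -1 := by
    clear key
    revert δ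
    decide
  rcases ha with rfl | rfl
  · rcases hδ with rfl | rfl | rfl
    · obtain ⟨b, hb, i, j, h1, h2, h3 | h3⟩ := hL.d0 w hg
      · refine key b hb i j ?_
        rw [toG_sub_same h1, h2, sub_self, h3]
      · refine key b hb j i ?_
        rw [toG_sub_same h1.symm, h2, sub_self]
        refine Prod.ext rfl ?_
        change (b j).v - (b i).v = w
        rw [← neg_sub, h3, neg_neg]
    · obtain ⟨b, hb, i, j, h1, h2, h3⟩ := hL.d1 w hg
      refine key b hb i j ?_
      rw [toG_sub_same h1, h2, h3]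
    · obtain ⟨b, hb, i, j, h1, h2, h3⟩ := hL.d1 (-w) (neg_ne_zero.2 hg)
      refine key b hb j i ?_
      rw [toG_sub_same h1.symm, ← neg_sub (b i).l, h2]
      refine Prod.ext rfl ?_
      change (b j).v - (b i).v = w
      rw [← neg_sub, h3, neg_neg]
  · obtain ⟨b, hb, i, j, h1, h2, h3 | h3⟩ := hL.mx (-δ) w hg
    · refine key b hb i j ?_
      rw [toG_sub_mixed h1, h2, neg_neg, h3]
    · refine key b hb j i ?_
      rw [toG_sub_mixed (Ne.symm h1), add_comm, h2, neg_neg]
      refine Prod.ext rfl ?_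
      change (b j).v - (b i).v = w
      rw [← neg_sub, h3, neg_neg]

/-- all differences of the family -/
def allDiffs (L : List (Fin 3 → Pt V)) : Multiset (G V) := ((L.flatMap tdiffs : List (G V)) : Multiset (G V))

theorem length_tdiffs (b : Fin 3 → Pt V) : (tdiffs b).length = 6 := by
  unfold tdiffs
  rw [List.length_map]
  rfl

theorem length_flatMap_const {α β : Type*} (L : List α) (f : α → List β) (c : ℕ) (h : ∀ a ∈ L, (f a).length = c) :
    (L.flatMap f).length = c * L.length := by
  induction L with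
  | nil => simp
  | cons a t ih =>
    rw [List.flatMap_cons, List.length_append, h a List.mem_cons_self, ih fun b hb => h b (List.mem_cons_of_mem _ hb),
      List.length_cons]
    ring

theorem Covers.allDiffs_eq {L : List (Fin 3 → Pt V)} (hL : Covers L) : allDiffs L = (offH V).val := by
  apply multiset_eq_of_cover
  · intro g hg
    obtain ⟨b, hb, h⟩ := hL.diff_mem (Finset.mem_filter.1 hg).2
    exact Multiset.mem_coe.2 (List.mem_flatMap.2 ⟨b, hb, h⟩)
  · unfold allDiffs
    rw [Multiset.coe_card, length_flatMap_const L tdiffs 6 fun a _ => length_tdiffs a, card_offH, ← hL.len,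
      Nat.add_sub_cancel]

theorem Covers.inj {L : List (Fin 3 → Pt V)} (hL : Covers L) {b : Fin 3 → Pt V} (hb : b ∈ L) :
    Function.Injective fun i => (b i).toG := by
  intro i j hij
  by_contra h
  have h1 : (0 : G V) ∈ allDiffs L := by
    refine Multiset.mem_coe.2 (List.mem_flatMap.2 ⟨b, hb, ?_⟩)
    unfold tdiffs
    rw [List.mem_map]
    exact ⟨(i, j), mem_pairs h, sub_eq_zero.2 hij⟩
  rw [hL.allDiffs_eq] at h1
  exact (Finset.mem_filter.1 h1).2 rfl

/-- the block of a triple -/
def block (b : Fin 3 → Pt V) : Finset (G V) := Finset.univ.image fun i => (b i).toG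

theorem block_val {b : Fin 3 → Pt V} (hb : Function.Injective fun i => (b i).toG) :
    (block b).val = (Finset.univ : Finset (Fin 3)).val.map fun i => (b i).toG := by
  unfold block
  rw [Finset.image_val_of_injOn hb.injOn]

theorem card_block {b : Fin 3 → Pt V} (hb : Function.Injective fun i => (b i).toG) : (block b).card = 3 := by
  unfold block
  rw [Finset.card_image_of_injective _ hb]
  rfl

theorem diffs_block {b : Fin 3 → Pt V} (hb : Function.Injective fun i => (b i).toG) :
    diffs (block b) = ((tdiffs b : List (G V)) : Multiset (G V)) := by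
  have h1 : (block b).offDiag =
      (Finset.univ : Finset (Fin 3)).offDiag.map ⟨fun x => ((b x.1).toG, (b x.2).toG), fun x y h => by
        simp only [Prod.mk.injEq] at h
        exact Prod.ext (hb h.1) (hb h.2)⟩ := by
    ext ⟨x, y⟩
    simp only [Finset.mem_offDiag, block, Finset.mem_image, Finset.mem_univ, true_and, Finset.mem_map,
      Function.Embedding.coeFn_mk, Prod.mk.injEq, Prod.exists]
    constructor
    · rintro ⟨⟨i, rfl⟩, ⟨j, rfl⟩, hij⟩
      exact ⟨i, j, fun h => hij (by rw [h]), rfl, rfl⟩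
    · rintro ⟨i, j, hij, rfl, rfl⟩
      exact ⟨⟨i, rfl⟩, ⟨j, rfl⟩, fun h => hij (hb h)⟩
  have h2 : (Finset.univ : Finset (Fin 3)).offDiag.val = ((pairs : List (Fin 3 × Fin 3)) : Multiset _) := by
    decide
  unfold diffs
  rw [h1, Finset.map_val, Multiset.map_map, h2]
  rfl

/-- the family of blocks -/
def fam (L : List (Fin 3 → Pt V)) : Multiset (Finset (G V)) := ((L.map block : List _) : Multiset _)

theorem bind_coe_map {α β γ : Type*} (L : List α) (f : α → β) (g : β → Multiset γ) (h : α → List γ)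
    (hh : ∀ a ∈ L, g (f a) = (h a : Multiset γ)) :
    (((L.map f : List β) : Multiset β)).bind g = ((L.flatMap h : List γ) : Multiset γ) := by
  induction L with
  | nil => simp
  | cons a t ih =>
    rw [List.map_cons, ← Multiset.cons_coe, Multiset.cons_bind, ih fun b hb => hh b (List.mem_cons_of_mem _ hb),
      hh a List.mem_cons_self, List.flatMap_cons, Multiset.coe_add]

theorem Covers.isDF {L : List (Fin 3 → Pt V)} (hL : Covers L) : IsDF (fam L) := by
  have h0 : (fam L).bind diffs = (offH V).val := by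
    rw [← hL.allDiffs_eq]
    exact bind_coe_map L block diffs tdiffs fun b hb => diffs_block (hL.inj hb)
  refine ⟨?_, ?_, ?_⟩
  · intro B hB
    obtain ⟨b, hb, rfl⟩ := List.mem_map.1 (Multiset.mem_coe.1 hB)
    exact card_block (hL.inj hb)
  · intro g hg
    rw [h0, Multiset.count_eq_zero]
    intro h
    exact mem_offH.1 h hg
  · intro g hg
    rw [h0]
    exact Multiset.count_eq_one_of_mem (offH V).nodup (mem_offH.2 hg)

/-- the points of a triple -/
def tpts (b : Fin 3 → Pt V) : List (G V) := [(b 0).toG, (b 1).toG, (b 2).toG]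

/-- the labels which have to be covered -/
def labels (V : Type*) [AddCommGroup V] [DecidableEq V] [Fintype V] : Finset (ZMod 3 × V) :=
  Finset.univ.filter fun g : ZMod 3 × V => g.2 ≠ 0

theorem card_labels : (labels V).card = 3 * (Fintype.card V - 1) := by
  have h : labels V = (Finset.univ : Finset (ZMod 3)) ×ˢ (Finset.univ.erase (0 : V)) := by
    ext ⟨d, v⟩
    unfold labels
    simp
  rw [h, Finset.card_product, Finset.card_erase_of_mem (Finset.mem_univ _), Finset.card_univ, Finset.card_univ]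
  rfl

theorem Covers.labels_eq {L : List (Fin 3 → Pt V)} (hL : Covers L) :
    (((L.flatMap tpts : List (G V)) : Multiset (G V))).map lab = (labels V).val := by
  apply multiset_eq_of_cover
  · rintro ⟨l, v⟩ hg
    obtain ⟨b, hb, i, h1, h2⟩ := hL.pt l v (Finset.mem_filter.1 hg).2
    rw [Multiset.mem_map]
    refine ⟨(b i).toG, Multiset.mem_coe.2 (List.mem_flatMap.2 ⟨b, hb, ?_⟩), ?_⟩
    · unfold tpts
      fin_cases i
      · simp
      · simp
      · simp
    · rw [lab_toG, h1, h2]
  · rw [Multiset.card_map, Multiset.coe_card, length_flatMap_const L tpts 3 fun a _ => rfl, card_labels, ← hL.len,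
      Nat.add_sub_cancel]

/-- the subgroup `J = {0, (1, 0)}` -/
def J (V : Type*) [AddCommGroup V] : AddSubgroup (G V) where
  carrier := {x | (x.1 = 0 ∨ x.1 = (⟨1, 0⟩ : Dih)) ∧ x.2 = 0}
  zero_mem' := ⟨Or.inl rfl, rfl⟩
  add_mem' := by
    rintro ⟨a, v⟩ ⟨b, w⟩ ⟨h1, h2⟩ ⟨h3, h4⟩
    refine ⟨?_, ?_⟩
    · change a + b = 0 ∨ a + b = (⟨1, 0⟩ : Dih)
      change a = 0 ∨ a = (⟨1, 0⟩ : Dih) at h1
      change b = 0 ∨ b = (⟨1, 0⟩ : Dih) at h3
      rcases h1 with rfl | rfl <;> rcases h3 with rfl | rfl <;> decide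
    · change v + w = 0
      change v = 0 at h2
      change w = 0 at h4
      rw [h2, h4, add_zero]
  neg_mem' := by
    rintro ⟨a, v⟩ ⟨h1, h2⟩
    refine ⟨?_, ?_⟩
    · change -a = 0 ∨ -a = (⟨1, 0⟩ : Dih)
      change a = 0 ∨ a = (⟨1, 0⟩ : Dih) at h1
      rcases h1 with rfl | rfl <;> decide
    · change -v = 0
      change v = 0 at h2
      rw [h2, neg_zero]

theorem mem_J {x : G V} : x ∈ J V ↔ (x.1 = 0 ∨ x.1 = (⟨1, 0⟩ : Dih)) ∧ x.2 = 0 := Iff.rfl

theorem neg_add_mem_J {g x : G V} : -g + x ∈ J V ↔ lab x = lab g := by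
  rw [mem_J]
  obtain ⟨a, v⟩ := g
  obtain ⟨b, w⟩ := x
  change ((-a + b = 0 ∨ -a + b = (⟨1, 0⟩ : Dih)) ∧ -v + w = 0) ↔ _
  rw [mem_J_iff]
  unfold lab
  rw [Prod.mk.injEq, neg_add_eq_zero]
  constructor
  · rintro ⟨h1, h2⟩
    exact ⟨h1.symm, h2.symm⟩
  · rintro ⟨h1, h2⟩
    exact ⟨h1.symm, h2.symm⟩

theorem card_J : Nat.card (J V) = 2 := by
  have h : ((J V : AddSubgroup (G V)) : Set (G V)) = {0, ((⟨1, 0⟩ : Dih), 0)} := by
    ext x
    rw [SetLike.mem_coe, mem_J, Set.mem_insert_iff, Set.mem_singleton_iff]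
    constructor
    · rintro ⟨h1 | h1, h2⟩
      · exact Or.inl (Prod.ext h1 h2)
      · exact Or.inr (Prod.ext h1 h2)
    · rintro (rfl | rfl)
      · exact ⟨Or.inl rfl, rfl⟩
      · exact ⟨Or.inr rfl, rfl⟩
  have h2 : Nat.card (J V) = (({0, ((⟨1, 0⟩ : Dih), 0)} : Finset (G V)) : Set (G V)).ncard := by
    rw [← Nat.card_coe_set_eq]
    change Nat.card ((J V : AddSubgroup (G V)) : Set (G V)) = _
    rw [h]
    simp
  rw [h2, Set.ncard_coe_finset, Finset.card_pair]
  intro h3
  have h4 : (0 : ZMod 2) = 1 := congrArg (fun x : G V => x.1.a) h3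
  exact absurd h4 (by decide)

theorem Covers.resolvable {L : List (Fin 3 → Pt V)} (hL : Covers L) : Resolvable (J V) (fam L) := by
  classical
  have h0 : ((fam L).bind fun B => B.val) = ((L.flatMap tpts : List (G V)) : Multiset (G V)) := by
    apply bind_coe_map
    intro b hb
    rw [block_val (hL.inj hb)]
    rfl
  have key : ∀ g : G V, (((fam L).bind fun B => B.val).filter fun x => -g + x ∈ J V).card =
      (labels V).val.count (lab g) := by
    intro g
    rw [← hL.labels_eq, h0, Multiset.count_map]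
    congr 1
    apply Multiset.filter_congr
    intro x _
    rw [neg_add_mem_J]
    exact ⟨Eq.symm, Eq.symm⟩
  have hH : ∀ g : G V, lab g ∈ labels V ↔ g ∉ H V := by
    intro g
    rw [← mem_offH]
    unfold labels offH lab
    simp
  unfold Resolvable
  constructor
  · intro g hg
    have h1 : (((fam L).bind fun B => B.val).filter fun x => -g + x ∈ J V).card = 0 := by
      rw [key, Multiset.count_eq_zero]
      intro h
      exact (hH g).1 h hg
    convert h1
  · intro g hg
    have h1 : (((fam L).bind fun B => B.val).filter fun x => -g + x ∈ J V).card = 1 := by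
      rw [key]
      exact Multiset.count_eq_one_of_mem (labels V).nodup ((hH g).2 hg)
    convert h1

theorem J_le : J V ≤ H V := by
  intro x hx
  exact AddSubgroup.mem_prod.2 ⟨AddSubgroup.mem_top _, AddSubgroup.mem_bot.2 (mem_J.1 hx).2⟩

theorem Covers.isRDF {L : List (Fin 3 → Pt V)} (hL : Covers L) : IsRDF (fam L) :=
  ⟨hL.isDF, J V, J_le, card_J, hL.resolvable⟩

end

end Pool.Agent.RDF
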