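import Pool.Agent.RDF.IntCover

/-!
MP_1678ab_co: a checker for explicit lists of blocks, with bit masks. A point is coded by `6 v + 2 l + c`.
-/

namespace Pool.Agent.RDF

/-- a block: three coded points -/
structure SBlk where
  x : ℕ
  y : ℕ
  z : ℕ

/-- the coded points -/
def SBlk.p (b : SBlk) : Fin 3 → ℕ
  | 0 => b.x
  | 1 => b.y
  | 2 => b.z

/-- decoding -/
def dec (x : ℕ) : IPt := ⟨x / 2 % 3, x % 2 == 1, ((x / 6 : ℕ) : ℤ)⟩

/-- the position of the pair in the column modulo `n` -/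
def Col.pos (n : ℕ) : Col → (x y : ℕ) → ℕ
  | .pt _, x, _ => x / 6
  | _, x, y => (x / 6 + (n - y / 6)) % n

/-- bit of the pair -/
def bit (n : ℕ) (col : Col) (x y : ℕ) : ℕ :=
  if col.rel (x / 2 % 3) (y / 2 % 3) (x % 2 == 1) (y % 2 == 1) then 1 <<< col.pos n x y else 0

/-- bits of a block -/
def bbits (n : ℕ) (col : Col) (b : SBlk) : ℕ :=
  bit n col b.x b.y ||| (bit n col b.x b.z ||| (bit n col b.y b.x ||| (bit n col b.y b.z |||
    (bit n col b.z b.x ||| bit n col b.z b.y))))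

/-- bits of a list of blocks -/
def lbits (n : ℕ) (col : Col) : List SBlk → ℕ
  | [] => 0
  | b :: L => bbits n col b ||| lbits n col L

/-- the column is covered on `1 ≤ v < e` -/
def colOk (n : ℕ) (L : List SBlk) (col : Col) (e : ℕ) : Bool :=
  (lbits n col L ||| 1) % 2 ^ e == 2 ^ e - 1

/-- check of a list of blocks for `n = 2 h - 1` -/
def smallOk (h : ℕ) (L : List SBlk) : Bool :=
  decide (0 < h) && (L.length + 1 == 2 * h - 1) &&
    (L.all fun b => decide (b.x / 6 < 2 * h - 1) && (decide (b.y / 6 < 2 * h - 1) && decide (b.z / 6 < 2 * h - 1))) &&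
    (colOk (2 * h - 1) L (.pt 0) (2 * h - 1) && (colOk (2 * h - 1) L (.pt 1) (2 * h - 1) &&
    (colOk (2 * h - 1) L (.pt 2) (2 * h - 1) && (colOk (2 * h - 1) L .d0 h && (colOk (2 * h - 1) L .d1 (2 * h - 1) &&
    (colOk (2 * h - 1) L (.mx 0) h && (colOk (2 * h - 1) L (.mx 1) h && colOk (2 * h - 1) L (.mx 2) h)))))))

theorem testBit_bit {n : ℕ} {col : Col} {x y w : ℕ} (h : (bit n col x y).testBit w = true) :
    col.rel (x / 2 % 3) (y / 2 % 3) (x % 2 == 1) (y % 2 == 1) = true ∧ col.pos n x y = w := by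
  unfold bit at h
  split at h
  · rename_i h1
    rw [Nat.one_shiftLeft, Nat.testBit_two_pow] at h
    exact ⟨h1, of_decide_eq_true h⟩
  · simp at h

theorem testBit_bbits {n : ℕ} {col : Col} {b : SBlk} {w : ℕ} (h : (bbits n col b).testBit w = true) :
    ∃ i j, col.rel (b.p i / 2 % 3) (b.p j / 2 % 3) (b.p i % 2 == 1) (b.p j % 2 == 1) = true ∧
      col.pos n (b.p i) (b.p j) = w := by
  unfold bbits at h
  simp only [Nat.testBit_or, Bool.or_eq_true] at h
  rcases h with h | h | h | h | h | h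
  · exact ⟨0, 1, testBit_bit h⟩
  · exact ⟨0, 2, testBit_bit h⟩
  · exact ⟨1, 0, testBit_bit h⟩
  · exact ⟨1, 2, testBit_bit h⟩
  · exact ⟨2, 0, testBit_bit h⟩
  · exact ⟨2, 1, testBit_bit h⟩

theorem testBit_lbits {n : ℕ} {col : Col} {L : List SBlk} {w : ℕ} (h : (lbits n col L).testBit w = true) :
    ∃ b ∈ L, ∃ i j, col.rel (b.p i / 2 % 3) (b.p j / 2 % 3) (b.p i % 2 == 1) (b.p j % 2 == 1) = true ∧
      col.pos n (b.p i) (b.p j) = w := by
  induction L with
  | nil => simp [lbits] at h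
  | cons b L ih =>
    unfold lbits at h
    rw [Nat.testBit_or, Bool.or_eq_true] at h
    rcases h with h | h
    · exact ⟨b, List.mem_cons_self, testBit_bbits h⟩
    · obtain ⟨b', hb', h'⟩ := ih h
      exact ⟨b', List.mem_cons_of_mem _ hb', h'⟩

theorem pos_dvd {n : ℕ} (hn : 0 < n) (col : Col) {x y : ℕ} (hy : y / 6 < n) :
    (n : ℤ) ∣ col.val (dec x).v (dec y).v - (col.pos n x y : ℤ) := by
  have key : (n : ℤ) ∣ ((x / 6 : ℕ) : ℤ) - ((y / 6 : ℕ) : ℤ) - (((x / 6 + (n - y / 6)) % n : ℕ) : ℤ) := by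
    have h1 := Nat.mod_add_div (x / 6 + (n - y / 6)) n
    refine ⟨(((x / 6 + (n - y / 6)) / n : ℕ) : ℤ) - 1, ?_⟩
    have h2 : (((x / 6 + (n - y / 6)) % n : ℕ) : ℤ) + (n : ℤ) * (((x / 6 + (n - y / 6)) / n : ℕ) : ℤ) =
        ((x / 6 : ℕ) : ℤ) + ((n : ℤ) - ((y / 6 : ℕ) : ℤ)) := by
      rw [← Nat.cast_sub hy.le]
      exact_mod_cast h1
    linear_combination -h2
  cases col with
  | pt l => exact ⟨0, by simp [Col.val, Col.pos, dec]⟩
  | d0 => exact key
  | d1 => exact key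
  | mx g => exact key

theorem colOk_sound {n : ℕ} (hn : 0 < n) {L : List SBlk} {col : Col} {e : ℕ}
    (hL : ∀ b ∈ L, ∀ i, b.p i / 6 < n) (h : colOk n L col e = true) :
    ColCov n (L.map fun b i => dec (b.p i)) col e := by
  intro v h1 h2
  obtain ⟨w, rfl⟩ := Int.eq_ofNat_of_zero_le (show 0 ≤ v by omega)
  have hw1 : 1 ≤ w := by exact_mod_cast h1
  have hw2 : w < e := by exact_mod_cast h2
  unfold colOk at h
  rw [beq_iff_eq] at h
  have h3 := congrArg (fun m => m.testBit w) h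
  simp only [Nat.testBit_mod_two_pow, Nat.testBit_two_pow_sub_one, Nat.testBit_or] at h3
  rw [decide_eq_true hw2, Bool.true_and, Bool.or_eq_true] at h3
  rcases h3 with h3 | h3
  · obtain ⟨b, hb, i, j, h4, h5⟩ := testBit_lbits h3
    refine ⟨_, List.mem_map.2 ⟨b, hb, rfl⟩, i, j, h4, ?_⟩
    rw [← h5]
    exact pos_dvd hn col (hL b hb j)
  · rw [Nat.testBit_one_eq_true_iff_self_eq_zero] at h3
    omega

theorem small_hasCover {h : ℕ} {L : List SBlk} (hs : smallOk h L = true) : HasCover (h : ℤ) := by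
  unfold smallOk at hs
  simp only [Bool.and_eq_true, decide_eq_true_eq, beq_iff_eq, List.all_eq_true] at hs
  obtain ⟨⟨⟨hh, hlen⟩, hb⟩, h0, h1, h2, h3, h4, h5, h6, h7⟩ := hs
  have hn : ((2 * h - 1 : ℕ) : ℤ) = 2 * (h : ℤ) - 1 := by omega
  have hL : ∀ b ∈ L, ∀ i, b.p i / 6 < 2 * h - 1 := by
    intro b hb' i
    have := hb b hb'
    fin_cases i
    · exact this.1
    · exact this.2.1
    · exact this.2.2
  have hn0 : 0 < 2 * h - 1 := by omega
  refine ⟨L.map fun b i => dec (b.p i), ?_, ?_, ?_, ?_, ?_⟩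
  · rw [List.length_map]
    omega
  · intro l hl
    rw [← hn]
    interval_cases l
    · exact colOk_sound hn0 hL h0
    · exact colOk_sound hn0 hL h1
    · exact colOk_sound hn0 hL h2
  · rw [← hn]
    exact colOk_sound hn0 hL h3
  · rw [← hn]
    exact colOk_sound hn0 hL h4
  · intro g hg
    rw [← hn]
    interval_cases g
    · exact colOk_sound hn0 hL h5
    · exact colOk_sound hn0 hL h6
    · exact colOk_sound hn0 hL h7

end Pool.Agent.RDF
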