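import Pool.Agent.RDF.IntCover

/-!
MP_1678ab_co: a symbolic checker for coverings of `Z_n`, `n = 2 (H k + h) - 1`, by families of blocks with linear
coordinates.
-/

namespace Pool.Agent.RDF

/-- a point of a family: label, colour, start `A k + B`, slope `s` -/
structure SPt where
  l : ℕ
  c : Bool
  A : ℤ
  B : ℤ
  s : ℤ

/-- a family of `LA k + LB` blocks with three points -/
structure Fam where
  LA : ℤ
  LB : ℤ
  x : SPt
  y : SPt
  z : SPt

/-- the points of a family -/
def Fam.p (F : Fam) : Fin 3 → SPt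
  | 0 => F.x
  | 1 => F.y
  | 2 => F.z

/-- value of a point -/
def SPt.eval (P : SPt) (k : ℤ) (t : ℕ) : IPt := ⟨P.l, P.c, P.A * k + P.B + P.s * t⟩

/-- the blocks of a family -/
def Fam.blocks (F : Fam) (k : ℤ) : List (Fin 3 → IPt) :=
  (List.range (F.LA * k + F.LB).toNat).map fun t i => (F.p i).eval k t

/-- all blocks -/
def blocksOf (Fs : List Fam) (k : ℤ) : List (Fin 3 → IPt) := Fs.flatMap fun F => F.blocks k

/-- reference to a piece: index of the family, two points, shift by `J n` -/
structure Ref where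
  f : ℕ
  i : Fin 3
  j : Fin 3
  J : ℤ

/-- an interval: its end `a k + b`, and for each offset a reference -/
structure Item where
  a : ℤ
  b : ℤ
  refs : List Ref

/-- `a k + b ≥ 0` for all `k ≥ k0` -/
def nn (k0 a b : ℤ) : Bool := decide (0 ≤ a) && decide (0 ≤ a * k0 + b)

theorem nn_sound {k0 a b k : ℤ} (h : nn k0 a b = true) (hk : k0 ≤ k) : 0 ≤ a * k + b := by
  unfold nn at h
  rw [Bool.and_eq_true, decide_eq_true_eq, decide_eq_true_eq] at h
  nlinarith [mul_le_mul_of_nonneg_left hk h.1]

/-- the progression with start `A k + B`, slope `s`, length `LA k + LB` covers all `v = a k + b` modulo `Q` with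
`a k + b ≤ v ≤ a' k + b'` -/
def pieceOk (k0 Q A B s LA LB a b a' b' : ℤ) : Bool :=
  decide (s ≠ 0) && decide (Q % s = 0) && decide ((a - A) % s = 0) && decide ((b - B) % s = 0) &&
    if 0 < s then nn k0 (a - A) (b - B) && nn k0 (A + s * LA - a') (B + s * (LB - 1) - b')
    else nn k0 (A - a') (B - b') && nn k0 (a - A - s * LA) (b - B - s * (LB - 1))

theorem pieceOk_sound {k0 Q A B s LA LB a b a' b' k v : ℤ} (h : pieceOk k0 Q A B s LA LB a b a' b' = true)
    (hk : k0 ≤ k) (hv : Q ∣ v - (a * k + b)) (h1 : a * k + b ≤ v) (h2 : v ≤ a' * k + b') :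
    ∃ t : ℕ, (t : ℤ) < LA * k + LB ∧ v = A * k + B + s * t := by
  unfold pieceOk at h
  simp only [Bool.and_eq_true, decide_eq_true_eq] at h
  obtain ⟨⟨⟨⟨hs, hQ⟩, ha⟩, hb⟩, h3⟩ := h
  have hd : s ∣ v - (A * k + B) := by
    have e1 : s ∣ v - (a * k + b) := (Int.dvd_of_emod_eq_zero hQ).trans hv
    have e2 : s ∣ (a - A) * k := (Int.dvd_of_emod_eq_zero ha).mul_right k
    have e3 : s ∣ b - B := Int.dvd_of_emod_eq_zero hb
    have e4 := dvd_add (dvd_add e1 e2) e3
    have e5 : v - (a * k + b) + (a - A) * k + (b - B) = v - (A * k + B) := by ring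
    rwa [e5] at e4
  obtain ⟨t, ht⟩ := hd
  have ht' : v = A * k + B + s * t := by linarith
  have key : 0 ≤ t ∧ t ≤ LA * k + LB - 1 := by
    by_cases hs0 : 0 < s
    · rw [if_pos hs0, Bool.and_eq_true] at h3
      have e1 := nn_sound h3.1 hk
      have e2 := nn_sound h3.2 hk
      constructor
      · by_contra hc
        have : s * t < 0 := mul_neg_of_pos_of_neg hs0 (not_le.1 hc)
        linarith
      · by_contra hc
        have e3 : s * (LA * k + LB - 1) < s * t := mul_lt_mul_of_pos_left (not_le.1 hc) hs0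
        linarith
    · rw [if_neg hs0, Bool.and_eq_true] at h3
      have hs1 : s < 0 := lt_of_le_of_ne (not_lt.1 hs0) hs
      have e1 := nn_sound h3.1 hk
      have e2 := nn_sound h3.2 hk
      constructor
      · by_contra hc
        have : 0 < s * t := mul_pos_of_neg_of_neg hs1 (not_le.1 hc)
        linarith
      · by_contra hc
        have e3 : s * t < s * (LA * k + LB - 1) := mul_lt_mul_of_neg_left (not_le.1 hc) hs1
        linarith
  refine ⟨t.toNat, ?_, ?_⟩
  · rw [Int.toNat_of_nonneg key.1]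
    linarith [key.2]
  · rw [Int.toNat_of_nonneg key.1]
    exact ht'

section

variable (H h k0 : ℤ) (Fs : List Fam) (col : Col)

/-- check of a reference -/
def refOk (Q : ℤ) (R : Ref) (a b a' b' : ℤ) : Bool :=
  match Fs[R.f]? with
  | none => false
  | some F =>
    col.rel (F.p R.i).l (F.p R.j).l (F.p R.i).c (F.p R.j).c &&
      pieceOk k0 Q (col.val (F.p R.i).A (F.p R.j).A + R.J * (2 * H))
        (col.val (F.p R.i).B (F.p R.j).B + R.J * (2 * h - 1)) (col.val (F.p R.i).s (F.p R.j).s) F.LA F.LB a b a' b'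

/-- the value `v` is covered -/
def Cov (k v : ℤ) : Prop :=
  ∃ b ∈ blocksOf Fs k, ∃ i j, col.rel (b i).l (b j).l (b i).c (b j).c = true ∧
    (2 * (H * k + h) - 1) ∣ col.val (b i).v (b j).v - v

variable {H h k0 Fs col}

theorem Col.val_lin (col : Col) (A A' B B' s s' k t : ℤ) :
    col.val (A * k + B + s * t) (A' * k + B' + s' * t) = col.val A A' * k + col.val B B' + col.val s s' * t := by
  cases col
  · rfl
  · change _ - _ = (A - A') * k + (B - B') + (s - s') * t
    ring
  · change _ - _ = (A - A') * k + (B - B') + (s - s') * t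
    ring
  · change _ - _ = (A - A') * k + (B - B') + (s - s') * t
    ring

theorem refOk_sound {Q : ℤ} {R : Ref} {a b a' b' k v : ℤ} (hr : refOk H h k0 Fs col Q R a b a' b' = true)
    (hk : k0 ≤ k) (hv : Q ∣ v - (a * k + b)) (h1 : a * k + b ≤ v) (h2 : v ≤ a' * k + b') : Cov H h Fs col k v := by
  unfold refOk at hr
  split at hr
  · exact absurd hr (by decide)
  · rename_i F hF
    rw [Bool.and_eq_true] at hr
    obtain ⟨t, ht, hvt⟩ := pieceOk_sound hr.2 hk hv h1 h2
    have hF' : F ∈ Fs := List.mem_of_getElem? hF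
    refine ⟨fun i => (F.p i).eval k t, ?_, R.i, R.j, hr.1, ?_⟩
    · unfold blocksOf Fam.blocks
      rw [List.mem_flatMap]
      refine ⟨F, hF', ?_⟩
      rw [List.mem_map]
      refine ⟨t, ?_, rfl⟩
      rw [List.mem_range]
      omega
    · change _ ∣ col.val ((F.p R.i).A * k + (F.p R.i).B + (F.p R.i).s * t)
        ((F.p R.j).A * k + (F.p R.j).B + (F.p R.j).s * t) - v
      rw [Col.val_lin, hvt]
      exact ⟨-R.J, by ring⟩

variable (H h k0 Fs col)

/-- check of the references of an interval from `a k + b` to `a' k + b'` for the offsets `o, o + 1, ...` modulo `m`;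
`ex`: the coefficient `a' - a` is divisible by `m`, and the last element of each class is known -/
def fullOk (m : ℤ) (ex : Bool) (a b a' b' : ℤ) : ℤ → List Ref → Bool
  | _, [] => true
  | o, R :: Rs =>
    refOk H h k0 Fs col m R a (b + o) a' (if ex then b' - 1 - (b' - 1 - b - o) % m else b' - 1) &&
      fullOk m ex a b a' b' (o + 1) Rs

/-- check of single values `a k + b + o`, `a k + b + o + 1`, ... -/
def singOk (a b : ℤ) : ℤ → List Ref → Bool
  | _, [] => true
  | o, R :: Rs => refOk H h k0 Fs col 6 R a (b + o) a (b + o) && singOk a b (o + 1) Rs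

/-- check of an interval -/
def itemOk (a b : ℤ) (it : Item) : Bool :=
  if it.a = a ∧ it.b = b + it.refs.length then singOk H h k0 Fs col a b 0 it.refs
  else decide (it.refs ≠ []) &&
    fullOk H h k0 Fs col it.refs.length (decide ((it.a - a) % it.refs.length = 0)) a b it.a it.b 0 it.refs

/-- check of a column -/
def chainOk (ea eb : ℤ) : (a b : ℤ) → List Item → Bool
  | a, b, [] => decide (a = ea) && decide (b = eb)
  | a, b, it :: its => itemOk H h k0 Fs col a b it && chainOk ea eb it.a it.b its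

variable {H h k0 Fs col}

theorem fullOk_sound {Q : ℤ} {ex : Bool} {a b a' b' : ℤ} (Rs : List Ref) (o : ℤ)
    (hr : fullOk H h k0 Fs col Q ex a b a' b' o Rs = true) (m : ℕ) (hm : m < Rs.length) :
    ∃ R : Ref, refOk H h k0 Fs col Q R a (b + (o + m)) a'
        (if ex then b' - 1 - (b' - 1 - b - (o + m)) % Q else b' - 1) = true := by
  induction Rs generalizing o m with
  | nil => simp at hm
  | cons R Rs ih =>
    unfold fullOk at hr
    rw [Bool.and_eq_true] at hr
    rcases m with _ | m
    · refine ⟨R, ?_⟩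
      rw [Nat.cast_zero, add_zero]
      exact hr.1
    · obtain ⟨R', hR'⟩ := ih (o + 1) hr.2 m (by simpa using hm)
      refine ⟨R', ?_⟩
      have e : o + ((m + 1 : ℕ) : ℤ) = o + 1 + (m : ℤ) := by
        push_cast
        ring
      rw [e]
      exact hR'

theorem singOk_sound {a b : ℤ} (Rs : List Ref) (o : ℤ)
    (hr : singOk H h k0 Fs col a b o Rs = true) (m : ℕ) (hm : m < Rs.length) :
    ∃ R : Ref, refOk H h k0 Fs col 6 R a (b + (o + m)) a (b + (o + m)) = true := by
  induction Rs generalizing o m with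
  | nil => simp at hm
  | cons R Rs ih =>
    unfold singOk at hr
    rw [Bool.and_eq_true] at hr
    rcases m with _ | m
    · refine ⟨R, ?_⟩
      rw [Nat.cast_zero, add_zero]
      exact hr.1
    · obtain ⟨R', hR'⟩ := ih (o + 1) hr.2 m (by simpa using hm)
      refine ⟨R', ?_⟩
      have e : o + ((m + 1 : ℕ) : ℤ) = o + 1 + (m : ℤ) := by
        push_cast
        ring
      rw [e]
      exact hR'

theorem itemOk_sound {a b : ℤ} {it : Item} (hi : itemOk H h k0 Fs col a b it = true) {k v : ℤ}
    (hk : k0 ≤ k) (h1 : a * k + b ≤ v) (h2 : v < it.a * k + it.b) : Cov H h Fs col k v := by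
  unfold itemOk at hi
  split at hi
  · rename_i hab
    obtain ⟨ha, hb⟩ := hab
    obtain ⟨m, hm⟩ := Int.eq_ofNat_of_zero_le (show 0 ≤ v - (a * k + b) by linarith)
    obtain ⟨R, hR⟩ := singOk_sound it.refs 0 hi m (by
      rw [ha, hb] at h2
      omega)
    rw [zero_add] at hR
    exact refOk_sound hR hk ⟨0, by linarith⟩ (by linarith) (by linarith)
  · rw [Bool.and_eq_true, decide_eq_true_eq] at hi
    obtain ⟨hne, hr⟩ := hi
    set Q : ℤ := (it.refs.length : ℤ) with hQdef
    have hQ : 0 < Q := by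
      have := List.length_pos_iff.2 hne
      omega
    have hm0 : 0 ≤ (v - (a * k + b)) % Q := Int.emod_nonneg _ hQ.ne'
    have hm1 : (v - (a * k + b)) % Q < Q := Int.emod_lt_of_pos _ hQ
    obtain ⟨m, hm⟩ := Int.eq_ofNat_of_zero_le hm0
    obtain ⟨R, hR⟩ := fullOk_sound it.refs 0 hr m (by omega)
    rw [zero_add] at hR
    have hq1 := Int.emod_add_mul_ediv (v - (a * k + b)) Q
    set q1 := (v - (a * k + b)) / Q
    have hdv : Q ∣ v - (a * k + (b + m)) := ⟨q1, by rw [hm] at hq1; linarith⟩
    have hq1' : 0 ≤ q1 := Int.ediv_nonneg (by linarith) hQ.le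
    have hlow : a * k + (b + m) ≤ v := by
      have : 0 ≤ Q * q1 := mul_nonneg hQ.le hq1'
      rw [hm] at hq1
      linarith
    by_cases hex : (it.a - a) % Q = 0
    · rw [if_pos (decide_eq_true hex)] at hR
      refine refOk_sound hR hk hdv hlow ?_
      -- the last element of the class
      have e1 := Int.emod_add_mul_ediv (it.b - 1 - b - m) Q
      have e2 := Int.emod_lt_of_pos (it.b - 1 - b - m) hQ
      have e3 := Int.emod_nonneg (it.b - 1 - b - m) hQ.ne'
      obtain ⟨c, hc⟩ := Int.dvd_of_emod_eq_zero hex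
      set d := (it.b - 1 - b - m) % Q with hd
      set q2 := (it.b - 1 - b - m) / Q
      -- `x = a' k + b' - 1 - v - d` is divisible by `Q` and `> -Q`
      have e4 : it.a * k + it.b - 1 - v - d = Q * (c * k + q2 - q1) := by
        have e5 : it.a = a + Q * c := by linarith
        rw [hm] at hq1
        rw [e5]
        linear_combination hq1 - e1
      have e6 : -Q < Q * (c * k + q2 - q1) := by linarith
      have e7 : 0 ≤ c * k + q2 - q1 := by
        by_contra hcon
        have : c * k + q2 - q1 ≤ -1 := by omega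
        nlinarith
      have e8 : 0 ≤ Q * (c * k + q2 - q1) := mul_nonneg hQ.le e7
      linarith
    · rw [if_neg (by rw [decide_eq_true_eq]; exact hex)] at hR
      exact refOk_sound hR hk hdv hlow (by linarith)

theorem chainOk_sound {ea eb : ℤ} {k : ℤ} (hk : k0 ≤ k) (its : List Item) {a b : ℤ}
    (hc : chainOk H h k0 Fs col ea eb a b its = true) (v : ℤ) (h1 : a * k + b ≤ v) (h2 : v < ea * k + eb) :
    Cov H h Fs col k v := by
  induction its generalizing a b with
  | nil =>
    unfold chainOk at hc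
    rw [Bool.and_eq_true, decide_eq_true_eq, decide_eq_true_eq] at hc
    rw [hc.1, hc.2] at h1
    omega
  | cons it its ih =>
    unfold chainOk at hc
    rw [Bool.and_eq_true] at hc
    by_cases h3 : v < it.a * k + it.b
    · exact itemOk_sound hc.1 hk h1 h3
    · exact ih hc.2 (not_lt.1 h3)

end

/-- a certificate for all `n = 2 (H k + h) - 1`, `k ≥ k0` -/
structure Cert where
  H : ℤ
  h : ℤ
  k0 : ℤ
  Fs : List Fam
  p0 : List Item
  p1 : List Item
  p2 : List Item
  d0 : List Item
  d1 : List Item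
  m0 : List Item
  m1 : List Item
  m2 : List Item

/-- the lengths of the families are nonnegative, and their sum is `A k + B` -/
def lenOk (k0 : ℤ) : List Fam → (A B : ℤ) → Bool
  | [], A, B => decide (A = 0) && decide (B = 0)
  | F :: Fs, A, B => nn k0 F.LA F.LB && lenOk k0 Fs (A - F.LA) (B - F.LB)

theorem lenOk_sound {k0 k : ℤ} (hk : k0 ≤ k) (Fs : List Fam) {A B : ℤ} (h : lenOk k0 Fs A B = true) :
    ((blocksOf Fs k).length : ℤ) = A * k + B := by
  induction Fs generalizing A B with
  | nil =>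
    unfold lenOk at h
    rw [Bool.and_eq_true, decide_eq_true_eq, decide_eq_true_eq] at h
    rw [h.1, h.2]
    simp [blocksOf]
  | cons F Fs ih =>
    unfold lenOk at h
    rw [Bool.and_eq_true] at h
    have e1 := ih h.2
    have e2 := nn_sound h.1 hk
    unfold blocksOf at e1 ⊢
    rw [List.flatMap_cons, List.length_append, Nat.cast_add, e1]
    unfold Fam.blocks
    rw [List.length_map, List.length_range, Int.toNat_of_nonneg e2]
    ring

/-- the check of a certificate -/
def Cert.check (C : Cert) : Bool :=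
  lenOk C.k0 C.Fs (2 * C.H) (2 * C.h - 2) &&
    (chainOk C.H C.h C.k0 C.Fs (.pt 0) (2 * C.H) (2 * C.h - 1) 0 1 C.p0 &&
    (chainOk C.H C.h C.k0 C.Fs (.pt 1) (2 * C.H) (2 * C.h - 1) 0 1 C.p1 &&
    (chainOk C.H C.h C.k0 C.Fs (.pt 2) (2 * C.H) (2 * C.h - 1) 0 1 C.p2 &&
    (chainOk C.H C.h C.k0 C.Fs .d0 C.H C.h 0 1 C.d0 &&
    (chainOk C.H C.h C.k0 C.Fs .d1 (2 * C.H) (2 * C.h - 1) 0 1 C.d1 &&
    (chainOk C.H C.h C.k0 C.Fs (.mx 0) C.H C.h 0 1 C.m0 &&
    (chainOk C.H C.h C.k0 C.Fs (.mx 1) C.H C.h 0 1 C.m1 &&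
    chainOk C.H C.h C.k0 C.Fs (.mx 2) C.H C.h 0 1 C.m2)))))))

theorem Cert.hasCover {C : Cert} (hC : C.check = true) {k : ℤ} (hk : C.k0 ≤ k) : HasCover (C.H * k + C.h) := by
  unfold Cert.check at hC
  simp only [Bool.and_eq_true] at hC
  obtain ⟨hl, h0, h1, h2, h3, h4, h5, h6, h7⟩ := hC
  have en : 2 * (C.H * k + C.h) - 1 = 2 * C.H * k + (2 * C.h - 1) := by ring
  have full : ∀ {col : Col} {its : List Item},
      chainOk C.H C.h C.k0 C.Fs col (2 * C.H) (2 * C.h - 1) 0 1 its = true →
      ColCov (2 * (C.H * k + C.h) - 1) (blocksOf C.Fs k) col (2 * (C.H * k + C.h) - 1) := by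
    intro col its hc v hv1 hv2
    refine chainOk_sound hk its hc v (by linarith) (by linarith)
  have half : ∀ {col : Col} {its : List Item},
      chainOk C.H C.h C.k0 C.Fs col C.H C.h 0 1 its = true →
      ColCov (2 * (C.H * k + C.h) - 1) (blocksOf C.Fs k) col (C.H * k + C.h) := by
    intro col its hc v hv1 hv2
    exact chainOk_sound hk its hc v (by linarith) hv2
  refine ⟨blocksOf C.Fs k, ?_, ?_, half h3, full h4, ?_⟩
  · rw [lenOk_sound hk C.Fs hl]
    ring
  · intro l hl'
    interval_cases l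
    · exact full h0
    · exact full h1
    · exact full h2
  · intro l hl'
    interval_cases l
    · exact half h5
    · exact half h6
    · exact half h7

end Pool.Agent.RDF
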